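import Pool.Agent.Helper21.DO.Pl

/-! D1 = 1, the first kill: a function of the base point (t, f) whose derivative along all lines is the coordinate f
does not exist. -/

set_option autoImplicit false

namespace Pool.Agent.Helper21.DO

open Finset Filter Topology Pool.Agent.Helper69.RK Pool.Agent.Helper31.EC Pool.Agent.Helper31.EC.Sp
open Pool.Agent.Helper31.EC.QS Pool.Agent.Helper57.TA

noncomputable section

variable {S : Sp} {D : ℕ}

namespace Fan

/-- if the derivatives of the polynomial `Θ` along all lines of a fan agree with those of a vector `v` of functions then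
the gradient of `Θ` is `v` -/
theorem grad (T : Fan S D) (g v : Fin D → QS S) {r : ℝ}
    (h : ∀ i, ∑ a, T.x i a * g a - ∑ a, T.x i a * v a ∈ QS.Id S r) (a : Fin D) : g a - v a ∈ QS.Id S r := by
  classical
  apply mulVec_mem_ideal (QS.Id S r) (Matrix.of T.x) (fun a => g a - v a) T.unit
  intro i
  have h1 : (Matrix.of T.x).mulVec (fun a => g a - v a) i = ∑ a, T.x i a * g a - ∑ a, T.x i a * v a := by
    rw [← Finset.sum_sub_distrib]
    unfold Matrix.mulVec dotProduct
    apply Finset.sum_congr rfl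
    intro b _
    show T.x i b * (g b - v b) = T.x i b * g b - T.x i b * v b
    ring
  rw [h1]
  exact h i

/-- small polynomials of the point have small coefficients -/
theorem coeff_small (T : Fan S D) {P : MvPolynomial (Fin D) (QS S)} (hP : P ∈ PK ⊥) {r : ℝ} (hr : r ≤ 1)
    (he : MvPolynomial.eval T.q P ∈ QS.Id S r) (m : Fin D →₀ ℕ) : P.coeff m ∈ QS.Id S r :=
  mv_small zero_lt_one le_rfl (Rl_iff_Rt.mp T.real_bot) hr le_rfl (PKr_of_PK le_rfl hP) he m

end Fan

theorem pderiv_mem {σ : Type} {A : S.L} {P : MvPolynomial σ (QS S)} (hP : P ∈ PK A) (i : σ) :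
    MvPolynomial.pderiv i P ∈ PK A := by
  classical
  rw [P.as_sum, map_sum]
  apply (PK A).sum_mem
  intro m _
  rw [MvPolynomial.pderiv_monomial]
  exact monomial_mem _ ((Kn S 1 le_rfl A).mul_mem (hP m) (natCast_mem (Kn S 1 le_rfl A) _))

/-- **FIRST KILL (K ≥ 3).** `q = (t, f, ..)` real point of a fan, `F` a function of the point with
`F = c + f_i t + x_i t² / 2` along every line of the fan (`f = f_i + t x_i`, `c` known to the line): impossible. -/
theorem kill3 (T : Fan S D) (l : Fin D) (hl : l ≠ T.ta) (F : QS S) (hF : QS.dg F 1 ≤ vd T.q 1) {r : ℝ}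
    (hr0 : 0 < r) (hr : r ≤ 1)
    (hG : ∀ i, ∃ c : QS S, QS.dg c 1 ≤ T.iL i ∧ 2 * F - (c + 2 * (T.f i l * T.t) + T.x i l * T.t ^ 2) ∈ QS.Id S r) :
    False := by
  classical
  choose c hc hce using hG
  obtain ⟨iv, hiv, hiv0⟩ : ∃ iv : QS S, iv * 2 = 1 ∧ QS.dg iv 1 ≤ ⊥ := ⟨cR S (1 / 2), cR_two, (dg_cR _ _).le⟩
  -- the polynomials along the lines
  obtain ⟨Q, hQ⟩ : ∃ Q : Fin D → Polynomial (QS S), Q = fun i => Polynomial.C (iv * c i) +
      Polynomial.C (T.f i l) * Polynomial.X + Polynomial.C (iv * T.x i l) * Polynomial.X ^ 2 := ⟨_, rfl⟩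
  have kf : ∀ i, QS.dg (T.f i l) 1 ≤ T.iL i := fun i => (dg_le_vd (T.f i) 1 l).trans le_sup_right
  have kx : ∀ i, QS.dg (T.x i l) 1 ≤ T.iL i := fun i => (dg_le_vd (T.x i) 1 l).trans le_sup_left
  have kiv : ∀ A : S.L, iv ∈ Kn S 1 le_rfl A := fun A => hiv0.trans bot_le
  have k0 : ∀ i, QS.dg (iv * c i) 1 ≤ T.iL i := fun i => (Kn S 1 le_rfl (T.iL i)).mul_mem (kiv _) (hc i)
  have k2 : ∀ i, QS.dg (iv * T.x i l) 1 ≤ T.iL i := fun i => (Kn S 1 le_rfl (T.iL i)).mul_mem (kiv _) (kx i)
  have hQk : ∀ i, Q i ∈ PK1 (T.iL i) := by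
    intro i
    rw [hQ]
    exact (PK1 _).add_mem ((PK1 _).add_mem (PK1_C (k0 i)) ((PK1 _).mul_mem (PK1_C (kf i)) (PK1_X _)))
      ((PK1 _).mul_mem (PK1_C (k2 i)) ((PK1 _).pow_mem (PK1_X _) 2))
  have hQe : ∀ i, (Q i).eval T.t = iv * c i + T.f i l * T.t + iv * T.x i l * T.t ^ 2 := by
    intro i
    rw [hQ]
    simp only [Polynomial.eval_add, Polynomial.eval_mul, Polynomial.eval_pow, Polynomial.eval_C, Polynomial.eval_X]
  have hQd : ∀ i, (Polynomial.derivative (Q i)).eval T.t = T.q l := by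
    intro i
    have h1 : (Polynomial.derivative (Q i)).eval T.t = T.f i l + iv * T.x i l * (2 * T.t) := by
      rw [hQ]
      simp
      ring
    have h2 : iv * T.x i l * (2 * T.t) = iv * 2 * (T.t * T.x i l) := by ring
    rw [h1, h2, hiv, one_mul]
    exact (T.pt i l).symm
  have hFQ : ∀ i, F - (Q i).eval T.t ∈ QS.Id S r := by
    intro i
    rw [hQe]
    have h1 := (QS.Id S r).mul_mem_left iv (hce i)
    have h2 : iv * (2 * F - (c i + 2 * (T.f i l * T.t) + T.x i l * T.t ^ 2)) =
        iv * 2 * F - (iv * c i + iv * 2 * (T.f i l * T.t) + iv * T.x i l * T.t ^ 2) := by ring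
    rw [h2, hiv, one_mul, one_mul] at h1
    exact h1
  -- weak polynomiality
  have hw : ∀ i, WPol (T.iL i) T.t F r := by
    intro i
    refine ⟨2, ![iv * c i, T.f i l, iv * T.x i l], ?_, ?_⟩
    · intro j
      fin_cases j
      · exact k0 i
      · exact kf i
      · exact k2 i
    · have h1 : pe ![iv * c i, T.f i l, iv * T.x i l] T.t = (Q i).eval T.t := by
        rw [hQe]
        unfold pe
        rw [Fin.sum_univ_three]
        simp
      rw [h1]
      exact hFQ i
  obtain ⟨W, p, Θ, hΘ, hΘe⟩ := T.poly F hF hr0.le hr hw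
  -- on the extension
  obtain ⟨T', hT'⟩ : ∃ T' : Fan W D, T' = T.pull p := ⟨_, rfl⟩
  have eq : T'.q = fun a => p.qs (T.q a) := by rw [hT']; rfl
  have ex : ∀ i, T'.x i = fun a => p.qs (T.x i a) := fun i => by rw [hT']; rfl
  have ef : ∀ i, T'.f i = fun a => p.qs (T.f i a) := fun i => by rw [hT']; rfl
  have eta : T'.ta = T.ta := by rw [hT']; rfl
  have et : T'.t = p.qs T.t := by rw [hT']; rfl
  have eL : ∀ i, T'.iL i = p.map (T.iL i) := by
    intro i
    unfold Fan.iL
    rw [ex, ef, vd_qs, vd_qs, p.map_sup]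
  have hd : ∀ i, ∑ a, T'.x i a * MvPolynomial.eval T'.q (MvPolynomial.pderiv a Θ) -
      ∑ a, T'.x i a * (if a = T'.ta then T'.q l else 0) ∈ QS.Id W r := by
    intro i
    have h1 : ∑ a, T'.x i a * (if a = T'.ta then T'.q l else 0) =
        (Polynomial.derivative ((Q i).map p.qs)).eval T'.t := by
      have h2 : ∀ a, T'.x i a * (if a = T'.ta then T'.q l else 0) =
          if a = T'.ta then T'.x i T'.ta * T'.q l else 0 := by
        intro a
        split_ifs with h3
        · rw [h3]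
        · rw [mul_zero]
      simp_rw [h2]
      rw [Finset.sum_ite_eq' Finset.univ T'.ta, if_pos (Finset.mem_univ _), T'.x1, one_mul,
        Polynomial.derivative_map, et, Polynomial.eval_map_apply, hQd, eq]
    rw [h1]
    apply deriv_line T'.q (T'.x i) (T'.f i) T'.t (T'.pt i) Θ (PK_mono bot_le hΘ)
    · intro n
      rw [Polynomial.coeff_map, p.qs_dg]
      have h2 := p.map_mono (hQk i n)
      rw [← eL i] at h2
      exact h2
    · exact T'.t_real i
    · exact hr
    · have h2 := (p.qs_mem_Id hr).mpr (hFQ i)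
      rw [map_sub] at h2
      have h3 := (QS.Id W r).sub_mem h2 hΘe
      rw [← eq] at h3
      rw [et, Polynomial.eval_map_apply]
      have h4 : MvPolynomial.eval T'.q Θ - p.qs ((Q i).eval T.t) =
          p.qs F - p.qs ((Q i).eval T.t) - (p.qs F - MvPolynomial.eval T'.q Θ) := by ring
      rw [h4]
      exact h3
  have hg := T'.grad _ _ hd
  -- the two mixed derivatives
  have h1 : (MvPolynomial.pderiv l Θ).coeff (Finsupp.single T'.ta 1) ∈ QS.Id W r := by
    apply T'.coeff_small (pderiv_mem hΘ l) hr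
    have h2 := hg l
    rw [if_neg (by rw [eta]; exact hl), sub_zero] at h2
    exact h2
  have h2 : (MvPolynomial.pderiv T'.ta Θ - MvPolynomial.X l).coeff (Finsupp.single l 1) ∈ QS.Id W r := by
    apply T'.coeff_small ((PK ⊥).sub_mem (pderiv_mem hΘ _) (X_mem _ _)) hr
    have h3 := hg T'.ta
    rw [if_pos rfl] at h3
    rw [map_sub, MvPolynomial.eval_X]
    exact h3
  have hne : l ≠ T'.ta := by rw [eta]; exact hl
  rw [MvPolynomial.coeff_sub, MvPolynomial.coeff_X, MvPolynomial.coeff_pderiv] at h2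
  rw [MvPolynomial.coeff_pderiv] at h1
  have h5 : (Finsupp.single T'.ta 1 : Fin D →₀ ℕ) l = 0 := Finsupp.single_eq_of_ne hne
  have h6 : (Finsupp.single l 1 : Fin D →₀ ℕ) T'.ta = 0 := Finsupp.single_eq_of_ne (Ne.symm hne)
  rw [h5, Nat.cast_zero, zero_add, mul_one] at h1
  rw [h6, Nat.cast_zero, zero_add, mul_one, add_comm (Finsupp.single l 1), if_pos rfl] at h2
  have h7 := (QS.Id W r).sub_mem h1 h2
  have h8 : Θ.coeff (Finsupp.single T'.ta 1 + Finsupp.single l 1) -
      (Θ.coeff (Finsupp.single T'.ta 1 + Finsupp.single l 1) - 1) = 1 := by ring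
  rw [h8] at h7
  exact one_notMem_Id hr0 h7

end

end Pool.Agent.Helper21.DO
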