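import Pool.Agent.Helper21.DO.Cst
import Pool.Agent.Helper81.TA.Star

/-! Polynomials along the lines through a real point: the derivative of a polynomial of the point which is known along
the lines. -/

set_option autoImplicit false

namespace Pool.Agent.Helper21.DO

open Finset Filter Topology Pool.Agent.Helper69.RK Pool.Agent.Helper31.EC Pool.Agent.Helper31.EC.Sp
open Pool.Agent.Helper31.EC.QS Pool.Agent.Helper57.TA

noncomputable section

variable {S : Sp}

theorem pe_coeff (P : Polynomial (QS S)) (t : QS S) :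
    pe (fun a : Fin (P.natDegree + 1) => P.coeff (a : ℕ)) t = P.eval t := by
  unfold pe
  rw [Polynomial.eval_eq_sum_range, Finset.sum_range]

/-- small polynomials of one real variable have small coefficients -/
theorem coeff_small (P : Polynomial (QS S)) (t : QS S) {A : S.L} (hP : ∀ n, QS.dg (P.coeff n) 1 ≤ A)
    (ht : h (QS.dg t 1) A = 1) {r : ℝ} (hr : r ≤ 1) (hz : P.eval t ∈ QS.Id S r) (n : ℕ) : P.coeff n ∈ QS.Id S r := by
  by_cases hn : n ≤ P.natDegree
  · have h1 : h (QS.dg t 1) (vd (fun a : Fin (P.natDegree + 1) => P.coeff (a : ℕ)) 1) = 1 := by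
      refine le_antisymm (h_dg_le_one _ _) (ht.symm.le.trans (h_anti ?_))
      rw [vd_le]
      intro a
      exact hP a
    have h2 := top_zero _ t zero_lt_one le_rfl h1 hr (by rw [pe_coeff]; exact hz) ⟨n, Nat.lt_succ_of_le hn⟩
    exact h2
  · rw [Polynomial.coeff_eq_zero_of_natDegree_lt (by omega)]
    exact (QS.Id S r).zero_mem

theorem eval_coeff_mem (P : Polynomial (QS S)) (t : QS S) {r : ℝ} (h : ∀ n, P.coeff n ∈ QS.Id S r) :
    P.eval t ∈ QS.Id S r := by
  rw [Polynomial.eval_eq_sum_range]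
  apply (QS.Id S r).sum_mem
  intro n _
  exact (QS.Id S r).mul_mem_right _ (h n)

/-- the derivative of a small polynomial of a real variable is small -/
theorem deriv_small (P : Polynomial (QS S)) (t : QS S) {A : S.L} (hP : ∀ n, QS.dg (P.coeff n) 1 ≤ A)
    (ht : h (QS.dg t 1) A = 1) {r : ℝ} (hr : r ≤ 1) (hz : P.eval t ∈ QS.Id S r) :
    (Polynomial.derivative P).eval t ∈ QS.Id S r := by
  apply eval_coeff_mem
  intro n
  rw [Polynomial.coeff_derivative]
  exact (QS.Id S r).mul_mem_right _ (coeff_small P t hP ht hr hz (n + 1))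

/-- polynomials in one variable with coefficients known to `A` -/
def PK1 (A : S.L) : Subring (Polynomial (QS S)) where
  carrier := {P | ∀ n, QS.dg (P.coeff n) 1 ≤ A}
  mul_mem' := by
    intro P Q hP hQ n
    rw [Polynomial.coeff_mul]
    exact (Kn S 1 le_rfl A).sum_mem fun x _ => (Kn S 1 le_rfl A).mul_mem (hP x.1) (hQ x.2)
  one_mem' := by
    intro n
    rw [Polynomial.coeff_one]
    split_ifs
    · exact (Kn S 1 le_rfl A).one_mem
    · exact (Kn S 1 le_rfl A).zero_mem
  add_mem' := by
    intro P Q hP hQ n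
    rw [Polynomial.coeff_add]
    exact (Kn S 1 le_rfl A).add_mem (hP n) (hQ n)
  zero_mem' := by
    intro n
    rw [Polynomial.coeff_zero]
    exact (Kn S 1 le_rfl A).zero_mem
  neg_mem' := by
    intro P hP n
    rw [Polynomial.coeff_neg]
    exact (Kn S 1 le_rfl A).neg_mem (hP n)

theorem PK1_C {A : S.L} {c : QS S} (hc : QS.dg c 1 ≤ A) : Polynomial.C c ∈ PK1 A := by
  intro n
  rw [Polynomial.coeff_C]
  split_ifs
  · exact hc
  · exact (Kn S 1 le_rfl A).zero_mem

theorem PK1_X (A : S.L) : (Polynomial.X : Polynomial (QS S)) ∈ PK1 A := by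
  intro n
  rw [Polynomial.coeff_X]
  split_ifs
  · exact (Kn S 1 le_rfl A).one_mem
  · exact (Kn S 1 le_rfl A).zero_mem

theorem PK1_aeval {σ : Type} {A : S.L} {P : MvPolynomial σ (QS S)} (hP : P ∈ PK A) (G : σ → Polynomial (QS S))
    (hG : ∀ i, G i ∈ PK1 A) : MvPolynomial.aeval G P ∈ PK1 A := by
  classical
  rw [P.as_sum, map_sum]
  apply (PK1 A).sum_mem
  intro m _
  rw [MvPolynomial.aeval_monomial]
  exact (PK1 A).mul_mem (PK1_C (hP m)) ((PK1 A).prod_mem fun i _ => (PK1 A).pow_mem (hG i) _)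

theorem eval_aeval {σ : Type} (P : MvPolynomial σ (QS S)) (G : σ → Polynomial (QS S)) (t : QS S) :
    (MvPolynomial.aeval G P).eval t = MvPolynomial.eval (fun i => (G i).eval t) P := by
  have h1 : (Polynomial.evalRingHom t).comp (MvPolynomial.aeval G).toRingHom =
      MvPolynomial.eval fun i => (G i).eval t := by
    apply MvPolynomial.ringHom_ext
    · intro r
      simp
    · intro i
      simp
  exact DFunLike.congr_fun h1 P

/-- the line through the point `q` with direction `x`, as a polynomial curve -/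
def lp {D : ℕ} (x f : Fin D → QS S) (a : Fin D) : Polynomial (QS S) :=
  Polynomial.C (f a) + Polynomial.X * Polynomial.C (x a)

/-- DERIVATIVE ALONG A LINE: if a polynomial of the point with coefficients of rate zero agrees along a line with a
polynomial `Q` in the real parameter with coefficients known to the line then its derivative in the direction of the
line is the derivative of `Q` -/
theorem deriv_line {D : ℕ} (q x f : Fin D → QS S) (t : QS S) (hq : ∀ a, q a = f a + t * x a)
    (Θ : MvPolynomial (Fin D) (QS S)) (hΘ : Θ ∈ PK (vd x 1 ⊔ vd f 1)) (Q : Polynomial (QS S))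
    (hQ : Q ∈ PK1 (vd x 1 ⊔ vd f 1)) (ht : h (QS.dg t 1) (vd x 1 ⊔ vd f 1) = 1) {r : ℝ} (hr : r ≤ 1)
    (he : MvPolynomial.eval q Θ - Q.eval t ∈ QS.Id S r) :
    ∑ a, x a * MvPolynomial.eval q (MvPolynomial.pderiv a Θ) - (Polynomial.derivative Q).eval t ∈ QS.Id S r := by
  have hG : ∀ a, lp x f a ∈ PK1 (vd x 1 ⊔ vd f 1) := by
    intro a
    exact (PK1 _).add_mem (PK1_C ((dg_le_vd f 1 a).trans le_sup_right))
      ((PK1 _).mul_mem (PK1_X _) (PK1_C ((dg_le_vd x 1 a).trans le_sup_left)))
  have hGe : (fun a => (lp x f a).eval t) = q := by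
    funext a
    unfold lp
    rw [Polynomial.eval_add, Polynomial.eval_mul, Polynomial.eval_C, Polynomial.eval_C, Polynomial.eval_X, hq]
  have h1 := deriv_small (MvPolynomial.aeval (lp x f) Θ - Q) t ((PK1 _).sub_mem (PK1_aeval hΘ _ hG) hQ) ht hr
    (by rw [Polynomial.eval_sub, eval_aeval, hGe]; exact he)
  rw [Polynomial.derivative_sub, Polynomial.eval_sub, derivative_aeval, Polynomial.eval_finsetSum] at h1
  have h2 : ∀ a, (MvPolynomial.aeval (lp x f) (MvPolynomial.pderiv a Θ) * Polynomial.derivative (lp x f a)).eval t =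
      x a * MvPolynomial.eval q (MvPolynomial.pderiv a Θ) := by
    intro a
    rw [Polynomial.eval_mul, eval_aeval, hGe]
    have h3 : Polynomial.derivative (lp x f a) = Polynomial.C (x a) := by
      unfold lp
      simp
    rw [h3, Polynomial.eval_C, mul_comm]
  simp_rw [h2] at h1
  exact h1

/-- lines through a real point: `D` directions (independent of the point) which span -/
structure Fan (S : Sp) (D : ℕ) where
  q : Fin D → QS S
  x : Fin D → Fin D → QS S
  f : Fin D → Fin D → QS S
  ta : Fin D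
  pt : ∀ i a, q a = f i a + q ta * x i a
  x1 : ∀ i, x i ta = 1
  unit : IsUnit (Matrix.of x).det
  real : Rl q (vd (fun u : Fin D × Fin D => x u.1 u.2) 1)

namespace Fan

variable {D : ℕ} (T : Fan S D)

/-- time -/
def t : QS S := T.q T.ta

/-- information of all the directions -/
def iX : S.L := vd (fun u : Fin D × Fin D => T.x u.1 u.2) 1

/-- information of one line -/
def iL (i : Fin D) : S.L := vd (T.x i) 1 ⊔ vd (T.f i) 1

theorem x_le (i a : Fin D) : QS.dg (T.x i a) 1 ≤ T.iX := dg_le_vd (fun u : Fin D × Fin D => T.x u.1 u.2) 1 (i, a)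

/-- the time is real over every line -/
theorem t_real (i : Fin D) : h (QS.dg T.t 1) (T.iL i) = 1 := by
  classical
  have hu : IsUnit (Matrix.of T.x).det := T.unit
  obtain ⟨X, hX⟩ : ∃ X : Matrix (Fin D) (Fin D) (QS S), X = Matrix.of T.x := ⟨_, rfl⟩
  rw [← hX] at hu
  have hXa : ∀ i a, X i a = T.x i a := fun i a => by rw [hX]; rfl
  have hXi : ∀ i a, QS.dg (X⁻¹ i a) 1 ≤ T.iX := inv_mem X le_rfl _ (fun i a => by rw [hXa]; exact T.x_le i a) hu
  obtain ⟨s, hs⟩ : ∃ s : Fin D → QS S, s = Matrix.vecMul T.q X⁻¹ := ⟨_, rfl⟩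
  have hsy : Matrix.vecMul s X = T.q := by
    rw [hs, Matrix.vecMul_vecMul, Matrix.nonsing_inv_mul _ hu, Matrix.vecMul_one]
  have hq1 : ∀ a, T.q a = ∑ j, s j * X j a := fun a => (congrFun hsy a).symm
  have ht : T.t = ∑ j, s j := by
    unfold t
    rw [hq1]
    apply Finset.sum_congr rfl
    intro j _
    rw [hXa, T.x1, mul_one]
  have hrl : Rl s T.iX := by
    apply Rl.of_ge
    have h1 : Rl T.q T.iX := T.real
    unfold Rl at h1
    rw [← h1]
    have hyk : vd T.q 1 ≤ vd s 1 ⊔ T.iX := by
      rw [vd_le]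
      intro a
      rw [hq1]
      apply (Kn S 1 le_rfl (vd s 1 ⊔ T.iX)).sum_mem
      intro j _
      refine (Kn S 1 le_rfl (vd s 1 ⊔ T.iX)).mul_mem ((dg_le_vd s 1 j).trans le_sup_left) ?_
      have h2 := T.x_le j a
      rw [← hXa] at h2
      exact h2.trans le_sup_right
    refine (h_mono hyk).trans ?_
    rw [h_sup_right_of_le le_rfl]
  have hf : T.iL i ≤ sd s (Finset.univ.erase i) ⊔ T.iX := by
    apply sup_le
    · rw [vd_le]
      intro a
      exact (T.x_le i a).trans le_sup_right
    · rw [vd_le]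
      intro a
      have h1 : T.f i a = ∑ j ∈ Finset.univ.erase i, s j * (X j a - X i a) := by
        have h2 := T.pt i a
        have h5 : T.q T.ta = T.t := rfl
        rw [h5, ht, ← hXa, hq1] at h2
        have h3 : T.f i a = ∑ j, s j * (X j a - X i a) := by
          have h4 : (∑ j, s j * (X j a - X i a)) = (∑ j, s j * X j a) - (∑ j, s j) * X i a := by
            rw [Finset.sum_mul, ← Finset.sum_sub_distrib]
            apply Finset.sum_congr rfl
            intro j _
            ring
          rw [h4, h2]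
          ring
        rw [h3, ← Finset.add_sum_erase Finset.univ _ (Finset.mem_univ i), sub_self, mul_zero, zero_add]
      rw [h1]
      apply (Kn S 1 le_rfl (sd s (Finset.univ.erase i) ⊔ T.iX)).sum_mem
      intro j hj
      refine (Kn S 1 le_rfl (sd s (Finset.univ.erase i) ⊔ T.iX)).mul_mem ((dg_le_sd s hj).trans le_sup_left)
        ((Kn S 1 le_rfl (sd s (Finset.univ.erase i) ⊔ T.iX)).sub_mem ?_ ?_)
      · have h2 := T.x_le j a
        rw [← hXa] at h2
        exact h2.trans le_sup_right
      · have h2 := T.x_le i a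
        rw [← hXa] at h2
        exact h2.trans le_sup_right
  apply le_antisymm (h_dg_le_one _ _)
  have h1 : h (QS.dg (s i) 1) (sd s (Finset.univ.erase i) ⊔ T.iX) = 1 := by
    have h2 := hrl.sub (s := {i}) (t := Finset.univ.erase i) (by
      rw [Finset.disjoint_singleton_left]
      exact Finset.notMem_erase i _)
    have h3 : sd s {i} = QS.dg (s i) 1 := by
      unfold sd
      exact Finset.sup_singleton
    rw [h3, Finset.card_singleton, Nat.cast_one] at h2
    exact h2
  have h2 : QS.dg (s i) 1 ≤ QS.dg T.t 1 ⊔ (sd s (Finset.univ.erase i) ⊔ T.iX) := by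
    have h3 : s i = T.t - ∑ j ∈ Finset.univ.erase i, s j := by
      rw [ht, ← Finset.add_sum_erase Finset.univ _ (Finset.mem_univ i)]
      ring
    rw [h3]
    refine (Kn S 1 le_rfl (QS.dg T.t 1 ⊔ (sd s (Finset.univ.erase i) ⊔ T.iX))).sub_mem ?_ ?_
    · show QS.dg T.t 1 ≤ QS.dg T.t 1 ⊔ (sd s (Finset.univ.erase i) ⊔ T.iX)
      exact le_sup_left
    · apply (Kn S 1 le_rfl (QS.dg T.t 1 ⊔ (sd s (Finset.univ.erase i) ⊔ T.iX))).sum_mem
      intro j hj
      show QS.dg (s j) 1 ≤ QS.dg T.t 1 ⊔ (sd s (Finset.univ.erase i) ⊔ T.iX)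
      have h4 := dg_le_sd s hj
      order
  calc (1 : ℝ) = h (QS.dg (s i) 1) (sd s (Finset.univ.erase i) ⊔ T.iX) := h1.symm
    _ ≤ h (QS.dg T.t 1 ⊔ (sd s (Finset.univ.erase i) ⊔ T.iX)) (sd s (Finset.univ.erase i) ⊔ T.iX) := h_mono h2
    _ = h (QS.dg T.t 1) (sd s (Finset.univ.erase i) ⊔ T.iX) := h_sup_right_of_le le_rfl
    _ ≤ h (QS.dg T.t 1) (T.iL i) := h_anti hf

/-- pullback -/
def pull {W : Sp} (p : Pj W S) : Fan W D where
  q := fun a => p.qs (T.q a)
  x := fun i a => p.qs (T.x i a)
  f := fun i a => p.qs (T.f i a)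
  ta := T.ta
  pt := by
    intro i a
    rw [T.pt i a, map_add, map_mul]
  x1 := by
    intro i
    rw [T.x1, map_one]
  unit := by
    have h1 : (Matrix.of fun i a => p.qs (T.x i a)) = p.qs.mapMatrix (Matrix.of T.x) := by
      ext i a
      rfl
    rw [h1, ← RingHom.map_det]
    exact T.unit.map p.qs
  real := by
    have h1 := T.real.pull p
    rwa [← vd_qs] at h1

/-- the star of helper57 with all its lines on one space -/
def star {γ : Type} [Fintype γ] (g : γ → QS S) (hg : vd g 1 ≤ vd T.q 1) :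
    Star S D g T.q T.t T.x T.f where
  W := S
  p := fun _ => Pj.id S
  com := fun _ _ _ => rfl
  comq := fun _ _ _ => rfl
  comt := fun _ _ => rfl
  pt := by
    intro i a
    simp only [Pj.id_qs]
    exact T.pt i a
  unit := by
    simp only [Pj.id_qs]
    exact T.unit
  real := by
    intro i₀
    simp only [Pj.id_qs]
    exact T.real
  ind := by
    intro i₀
    simp only [Pj.id_qs, Pj.id_map]
    rw [sup_eq_left.mpr hg]
    apply le_antisymm _ (I_nonneg _ _ _)
    rw [I_eq', sup_bot_eq]
    have h1 := T.real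
    unfold Rl at h1
    rw [h1]
    have h2 := h_sd_le T.q Finset.univ ⊥
    rw [sd_univ, Finset.card_univ] at h2
    linarith

/-- a function of the point which is polynomial along the lines is a polynomial of the point -/
theorem poly (F : QS S) (hF : QS.dg F 1 ≤ vd T.q 1) {r : ℝ} (hr0 : 0 ≤ r) (hr : r ≤ 1)
    (hw : ∀ i, WPol (T.iL i) T.t F r) :
    ∃ (W : Sp) (p : Pj W S) (Θ : MvPolynomial (Fin D) (QS W)), Θ ∈ PK ⊥ ∧
      p.qs F - MvPolynomial.eval (fun a => p.qs (T.q a)) Θ ∈ QS.Id W r :=
  Pool.Agent.Helper81.TA.star (fun _ : Unit => F) T.q T.t T.x T.f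
    (T.star (fun _ : Unit => F) (by rw [vd_le]; intro _; exact hF)) () T.ta rfl T.x1 hr0 hr hF hw

theorem real_bot : Rl T.q ⊥ := T.real.anti bot_le

end Fan

end

end Pool.Agent.Helper21.DO
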