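import Pool.Agent.Helper57.TA.Uni

/-! Exact entropy calculus: real constants in the ring of functions to full precision; the chain rule for polynomials
along a curve. -/

set_option autoImplicit false

namespace Pool.Agent.Helper21.DO

open Finset Filter Topology Pool.Agent.Helper69.RK Pool.Agent.Helper31.EC Pool.Agent.Helper31.EC.Sp
open Pool.Agent.Helper31.EC.QS Pool.Agent.Helper57.TA

noncomputable section

/-- real constants as tame functions -/
def cT (S : Sp) : ℝ →+* TR S where
  toFun c := ⟨fun _ _ => c, ⟨fun _ => |c|, S.Sub_const (abs_nonneg c), Eventually.of_forall fun _ _ _ => le_rfl⟩⟩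
  map_one' := rfl
  map_mul' _ _ := rfl
  map_zero' := rfl
  map_add' _ _ := rfl

/-- real constants -/
def cR (S : Sp) : ℝ →+* QS S := (QS.mk (S := S)).comp (cT S)

theorem cR_mk (S : Sp) (c : ℝ) : cR S c = QS.mk (cT S c) := rfl

theorem dg_cR {S : Sp} (c r : ℝ) : QS.dg (cR S c) r = ⊥ := by
  rcases le_total r 1 with h | h
  · rw [cR_mk, dg_mk _ h]
    exact TR.const_dg _ (Eventually.of_forall fun _ _ _ => rfl) r
  · rw [dg_cut _ h, cR_mk, dg_mk _ le_rfl]
    exact TR.const_dg _ (Eventually.of_forall fun _ _ _ => rfl) 1

theorem qs_cR {T S : Sp} (p : Pj T S) (c : ℝ) : p.qs (cR S c) = cR T c := by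
  rw [cR_mk, p.qs_mk]
  rfl

theorem isUnit_cR {S : Sp} {c : ℝ} (hc : c ≠ 0) : IsUnit (cR S c) := (isUnit_iff_ne_zero.mpr hc).map (cR S)

theorem cR_two {S : Sp} : cR S (1 / 2) * 2 = 1 := by
  have h1 : cR S (1 / 2) * cR S 2 = 1 := by
    rw [← map_mul]
    norm_num
  rw [map_ofNat] at h1
  exact h1

/-- chain rule: the derivative of a polynomial along a polynomial curve -/
theorem derivative_aeval {A σ : Type} [CommRing A] [Fintype σ] (G : σ → Polynomial A) (P : MvPolynomial σ A) :
    Polynomial.derivative (MvPolynomial.aeval G P) =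
      ∑ i, MvPolynomial.aeval G (MvPolynomial.pderiv i P) * Polynomial.derivative (G i) := by
  classical
  induction P using MvPolynomial.induction_on with
  | C a =>
    rw [MvPolynomial.algHom_C]
    simp
  | add p q hp hq =>
    rw [map_add, Polynomial.derivative_add, hp, hq, ← Finset.sum_add_distrib]
    apply Finset.sum_congr rfl
    intro i _
    rw [map_add, map_add, add_mul]
  | mul_X p n hp =>
    rw [map_mul, MvPolynomial.aeval_X, Polynomial.derivative_mul, hp]
    have h1 : ∀ i, MvPolynomial.aeval G (MvPolynomial.pderiv i (p * MvPolynomial.X n)) *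
        Polynomial.derivative (G i) = MvPolynomial.aeval G (MvPolynomial.pderiv i p) * Polynomial.derivative (G i) *
          G n + (if i = n then MvPolynomial.aeval G p * Polynomial.derivative (G n) else 0) := by
      intro i
      rw [Derivation.leibniz, smul_eq_mul, smul_eq_mul, map_add, map_mul, map_mul, MvPolynomial.aeval_X,
        MvPolynomial.pderiv_X]
      by_cases h : i = n
      · subst h
        rw [Pi.single_eq_same, map_one, if_pos rfl]
        ring
      · rw [Pi.single_eq_of_ne (Ne.symm h), map_zero, if_neg h]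
        ring
    simp_rw [h1]
    rw [Finset.sum_add_distrib, Finset.sum_ite_eq' Finset.univ n, if_pos (Finset.mem_univ n), ← Finset.sum_mul]

end

end Pool.Agent.Helper21.DO
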