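import Pool.Agent.Helper67.DO.StmtsD

/-!
# D8: density of sums of products of test functions
-/

namespace Pool.Agent.Helper67.DO

open scoped BigOperators Real
open MeasureTheory

noncomputable section

/-- interpolation on a compact metric space -/
theorem d8_interp {T Y : Type*} [MetricSpace T] [CompactSpace T] [Nonempty Y] (S : Set Y) (τ : Y → T)
    (f : Y → ℂ) (ε δ : ℝ) (hδ : 0 < δ)
    (h : ∀ y ∈ S, ∀ y' ∈ S, dist (τ y) (τ y') ≤ δ → ‖f y - f y'‖ ≤ ε) :
    ∃ G : C(T, ℂ), ∀ y ∈ S, ‖G (τ y) - f y‖ ≤ ε := by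
  classical
  have htb : TotallyBounded (τ '' S) := (isCompact_univ.totallyBounded).subset (Set.subset_univ _)
  obtain ⟨t, htS, htf, hcov⟩ := htb.exists_subset (Metric.dist_mem_uniformity (half_pos hδ))
  have hc : ∀ c : T, ∃ y : Y, c ∈ τ '' S → (y ∈ S ∧ τ y = c) := by
    intro c
    by_cases hcS : c ∈ τ '' S
    · obtain ⟨y, hy, hyc⟩ := hcS
      exact ⟨y, fun _ => ⟨hy, hyc⟩⟩
    · exact ⟨Classical.arbitrary Y, fun h => absurd h hcS⟩
  choose g hg using hc
  let φ : T → T → ℝ := fun c x => max 0 (δ - dist x c)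
  have hφc : ∀ c, Continuous (φ c) := fun c =>
    continuous_const.max (continuous_const.sub (continuous_id.dist continuous_const))
  have hφ0 : ∀ c x, 0 ≤ φ c x := fun c x => le_max_left _ _
  let den : T → ℝ := fun x => max (∑ c ∈ htf.toFinset, φ c x) (δ / 2)
  have hden : ∀ x, 0 < den x := fun x => lt_of_lt_of_le (half_pos hδ) (le_max_right _ _)
  have hdenc : Continuous den := (continuous_finsetSum _ fun c _ => hφc c).max continuous_const
  let num : T → ℂ := fun x => ∑ c ∈ htf.toFinset, (φ c x : ℂ) * f (g c)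
  have hnumc : Continuous num := continuous_finsetSum _ fun c _ =>
    (Complex.continuous_ofReal.comp (hφc c)).mul continuous_const
  refine ⟨⟨fun x => num x / (den x : ℂ), hnumc.div (Complex.continuous_ofReal.comp hdenc)
    fun x => Complex.ofReal_ne_zero.2 (hden x).ne'⟩, ?_⟩
  intro y hy
  have hyZ : τ y ∈ τ '' S := ⟨y, hy, rfl⟩
  have h1 := hcov hyZ
  simp only [Set.mem_iUnion, Set.mem_ofPred_eq, exists_prop] at h1
  obtain ⟨c, hct, hcd⟩ := h1
  have hsum : δ / 2 ≤ ∑ c ∈ htf.toFinset, φ c (τ y) := by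
    have h2 : δ / 2 ≤ φ c (τ y) := by
      have : δ - dist (τ y) c ≤ φ c (τ y) := le_max_right _ _
      linarith
    exact h2.trans (Finset.single_le_sum (f := fun c => φ c (τ y)) (fun c _ => hφ0 c _)
      (htf.mem_toFinset.2 hct))
  have hde : den (τ y) = ∑ c ∈ htf.toFinset, φ c (τ y) := max_eq_left hsum
  have hdc : (den (τ y) : ℂ) ≠ 0 := Complex.ofReal_ne_zero.2 (hden _).ne'
  have e1 : num (τ y) / (den (τ y) : ℂ) - f y
      = (∑ c ∈ htf.toFinset, (φ c (τ y) : ℂ) * (f (g c) - f y)) / (den (τ y) : ℂ) := by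
    rw [eq_div_iff hdc, sub_mul, div_mul_cancel₀ _ hdc]
    simp only [mul_sub, Finset.sum_sub_distrib]
    rw [← Finset.sum_mul, hde]
    push_cast
    ring
  show ‖num (τ y) / (den (τ y) : ℂ) - f y‖ ≤ ε
  rw [e1, norm_div, Complex.norm_real, Real.norm_of_nonneg (hden _).le, div_le_iff₀ (hden _)]
  refine (norm_sum_le _ _).trans ?_
  rw [hde, Finset.mul_sum]
  refine Finset.sum_le_sum fun c hc => ?_
  rw [norm_mul, Complex.norm_real, Real.norm_of_nonneg (hφ0 _ _), mul_comm]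
  by_cases h0 : φ c (τ y) = 0
  · rw [h0]; simp
  · have hcS := htS (htf.mem_toFinset.1 hc)
    obtain ⟨hg1, hg2⟩ := hg c hcS
    have hd : dist (τ y) c ≤ δ := by
      by_contra hcon
      exact h0 (max_eq_left (by linarith))
    refine mul_le_mul_of_nonneg_right (h (g c) hg1 y hy ?_) (hφ0 _ _)
    rw [hg2, dist_comm]
    exact hd

/-- trigonometric polynomials are dense on a torus -/
theorem d8_torus {d : Type*} [Fintype d] (G : C(UnitAddTorus d, ℂ)) (ε : ℝ) (hε : 0 < ε) :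
    ∃ (J : ℕ) (a : Fin J → ℂ) (m : Fin J → d → ℤ), ∀ x, ‖G x - ∑ i, a i * UnitAddTorus.mFourier (m i) x‖ ≤ ε := by
  classical
  have hG : G ∈ (Submodule.span ℂ (Set.range (UnitAddTorus.mFourier (d := d)))).topologicalClosure := by
    rw [UnitAddTorus.span_mFourier_closure_eq_top]
    exact Submodule.mem_top
  have hG' : G ∈ closure ((Submodule.span ℂ (Set.range (UnitAddTorus.mFourier (d := d))) : Set C(UnitAddTorus d, ℂ))) := hG
  obtain ⟨P, hP, hPd⟩ := Metric.mem_closure_iff.1 hG' ε hε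
  obtain ⟨c, hc⟩ := Finsupp.mem_span_range_iff_exists_finsupp.1 hP
  refine ⟨c.support.card, fun i => c (c.support.equivFin.symm i), fun i => (c.support.equivFin.symm i : d → ℤ), ?_⟩
  intro x
  have e1 : P x = ∑ i : Fin c.support.card, c (c.support.equivFin.symm i) *
      UnitAddTorus.mFourier ((c.support.equivFin.symm i : d → ℤ)) x := by
    rw [← hc, Finsupp.sum, ContinuousMap.sum_apply]
    rw [← Finset.sum_coe_sort c.support]
    exact (Equiv.sum_comp c.support.equivFin.symm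
      (fun i : c.support => (c (i : d → ℤ) • UnitAddTorus.mFourier (i : d → ℤ)) x)).symm
  rw [← e1, ← dist_eq_norm]
  exact (ContinuousMap.dist_apply_le_dist x).trans hPd.le

/-- closeness on the circle -/
theorem d8_circ (a b δ : ℝ) (h : dist (a : UnitAddCircle) (b : UnitAddCircle) ≤ δ) :
    ∃ t : ℤ, |a + t - b| ≤ δ := by
  rw [dist_eq_norm, ← QuotientAddGroup.mk_sub] at h
  have h2 : ‖((a - b : ℝ) : UnitAddCircle)‖ = |(a - b) - ↑(round (a - b))| := UnitAddCircle.norm_eq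
  have h' : |(a - b) - ↑(round (a - b))| ≤ δ := h2 ▸ h
  refine ⟨-round (a - b), ?_⟩
  have e : a + ((-round (a - b) : ℤ) : ℝ) - b = (a - b) - ↑(round (a - b)) := by push_cast; ring
  rw [e]
  exact h'

/-- grid points determine a lift with bounded derivative -/
theorem d8_grid (Φ Ψ : ℝ → ℝ) (hΦ : ∀ x, Φ (x + 1) = Φ x + 1) (hΨ : ∀ x, Ψ (x + 1) = Ψ x + 1) (M : ℝ)
    (hM : 0 ≤ M)
    (lΦ : ∀ x x', |Φ x - Φ x'| ≤ M * |x - x'|) (lΨ : ∀ x x', |Ψ x - Ψ x'| ≤ M * |x - x'|) (N : ℕ) (hN : 0 < N)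
    (δ : ℝ) (hδ : 2 * δ + 2 * M / N < 1)
    (h : ∀ k : Fin N, dist ((Φ ((k : ℕ) / (N : ℝ)) : ℝ) : UnitAddCircle) ((Ψ ((k : ℕ) / (N : ℝ)) : ℝ) : UnitAddCircle) ≤ δ) :
    ∃ t : ℤ, ∀ x, |Φ x + t - Ψ x| ≤ δ + 2 * M / N := by
  have hN' : (0 : ℝ) < N := by exact_mod_cast hN
  have h1 : ∀ k : ℕ, k < N → ∃ t : ℤ, |Φ ((k : ℕ) / (N : ℝ)) + t - Ψ ((k : ℕ) / (N : ℝ))| ≤ δ :=
    fun k hk => d8_circ _ _ _ (h ⟨k, hk⟩)
  obtain ⟨t, ht⟩ := h1 0 hN
  have h2 : ∀ k : ℕ, k < N → |Φ ((k : ℕ) / (N : ℝ)) + t - Ψ ((k : ℕ) / (N : ℝ))| ≤ δ := by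
    intro k
    induction k with
    | zero => intro _; exact ht
    | succ k ih =>
      intro hk
      have ih' := ih (by omega)
      obtain ⟨t', ht'⟩ := h1 (k + 1) hk
      have a1 := lΦ (((k + 1 : ℕ) : ℝ) / N) ((k : ℝ) / N)
      have a2 := lΨ (((k + 1 : ℕ) : ℝ) / N) ((k : ℝ) / N)
      have e : |((k + 1 : ℕ) : ℝ) / N - (k : ℝ) / N| = 1 / N := by
        rw [← sub_div]
        push_cast
        rw [add_sub_cancel_left, abs_of_pos (by positivity)]
      rw [e] at a1 a2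
      have hh : |((t' - t : ℤ) : ℝ)| < 1 := by
        have e2 : ((t' - t : ℤ) : ℝ) = (Φ (((k + 1 : ℕ) : ℝ) / N) + t' - Ψ (((k + 1 : ℕ) : ℝ) / N))
          - (Φ ((k : ℝ) / N) + t - Ψ ((k : ℝ) / N)) - (Φ (((k + 1 : ℕ) : ℝ) / N) - Φ ((k : ℝ) / N))
          + (Ψ (((k + 1 : ℕ) : ℝ) / N) - Ψ ((k : ℝ) / N)) := by push_cast; ring
        rw [e2]
        have b1 := abs_le.1 ht'
        have b2 := abs_le.1 ih'
        have b3 := abs_le.1 a1
        have b4 := abs_le.1 a2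
        have e3 : M * (1 / N) + M * (1 / N) = 2 * M / (N : ℝ) := by ring
        rw [abs_lt]
        constructor <;> linarith [b1.1, b1.2, b2.1, b2.2, b3.1, b3.2, b4.1, b4.2]
      have h0 : t' - t = 0 := by
        have : |t' - t| < 1 := by exact_mod_cast hh
        exact Int.abs_lt_one_iff.1 this
      have : t' = t := by omega
      rw [← this]
      exact ht'
  refine ⟨t, ?_⟩
  have h3 : ∀ x : ℝ, 0 ≤ x → x < 1 → |Φ x + t - Ψ x| ≤ δ + 2 * M / N := by
    intro x hx0 hx1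
    have hk0 : (0 : ℝ) ≤ x * N := by positivity
    have hk1 : (Nat.floor (x * N) : ℝ) ≤ x * N := Nat.floor_le hk0
    have hk2 : x * N < Nat.floor (x * N) + 1 := Nat.lt_floor_add_one _
    have hk : Nat.floor (x * N) < N := by
      have : (Nat.floor (x * N) : ℝ) < N := lt_of_le_of_lt hk1 (by nlinarith)
      exact_mod_cast this
    have b1 := abs_le.1 (h2 _ hk)
    have a1 := lΦ x ((Nat.floor (x * N) : ℕ) / (N : ℝ))
    have a2 := lΨ x ((Nat.floor (x * N) : ℕ) / (N : ℝ))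
    have e : |x - ((Nat.floor (x * N) : ℕ) : ℝ) / N| ≤ 1 / N := by
      have e1 : x - ((Nat.floor (x * N) : ℕ) : ℝ) / N = (x * N - (Nat.floor (x * N) : ℕ)) / N := by
        field_simp
      rw [e1, abs_div, abs_of_pos hN']
      refine div_le_div_of_nonneg_right ?_ hN'.le
      rw [abs_le]; constructor <;> linarith
    have c1 := abs_le.1 (a1.trans (mul_le_mul_of_nonneg_left e hM))
    have c2 := abs_le.1 (a2.trans (mul_le_mul_of_nonneg_left e hM))
    have e3 : M * (1 / N) + M * (1 / N) = 2 * M / (N : ℝ) := by ring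
    rw [abs_le]
    constructor <;> linarith [b1.1, b1.2, c1.1, c1.2, c2.1, c2.2]
  have h4 : ∀ (F : ℝ → ℝ), (∀ x, F (x + 1) = F x + 1) → ∀ (k : ℤ) (x : ℝ), F (x + k) = F x + k := by
    intro F hF k x
    induction k using Int.induction_on with
    | zero => simp
    | succ i ih => push_cast at ih ⊢; rw [← add_assoc, hF, ih]; ring
    | pred i ih =>
      have := hF (x + ((-(i : ℤ) - 1 : ℤ) : ℝ))
      push_cast at ih this ⊢
      have e : x + (-(i : ℝ) - 1) + 1 = x + -(i : ℝ) := by ring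
      rw [e, ih] at this
      linarith
  intro x
  have h5 := h3 (Int.fract x) (Int.fract_nonneg x) (Int.fract_lt_one x)
  have e1 : x = Int.fract x + (⌊x⌋ : ℤ) := (Int.fract_add_floor x).symm
  rw [e1, h4 Φ hΦ, h4 Ψ hΨ]
  have e2 : Φ (Int.fract x) + (⌊x⌋ : ℤ) + (t : ℝ) - (Ψ (Int.fract x) + (⌊x⌋ : ℤ))
      = Φ (Int.fract x) + t - Ψ (Int.fract x) := by ring
  rw [e2]
  exact h5

/-- level `n` lifts are uniformly Lipschitz -/
theorem d8_lip (h1 : ST_D1) (n : ℕ) (hn : 1 ≤ n) : ∃ M : ℝ, 0 < M ∧ ∀ Φ ∈ AA n, ∀ x x', |Φ x - Φ x'| ≤ M * |x - x'| := by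
  obtain ⟨ρ, s, M, hI⟩ := h1 n hn
  refine ⟨M, hI.pos.2.2.2, ?_⟩
  intro Φ hΦ x x'
  have hρ : 0 < 2 * ρ := by have := hI.pos; linarith [this.1, this.2.1]
  have hopen : IsOpen (St (2 * ρ)) := by
    have : Continuous fun z : ℂ => |z.im| := Complex.continuous_im.abs
    exact isOpen_lt this continuous_const
  have hmem : ∀ t : ℝ, (t : ℂ) ∈ St (2 * ρ) := by
    intro t
    show |(t : ℂ).im| < 2 * ρ
    simpa using hρ
  have hd : ∀ t : ℝ, ‖deriv Φ t‖ ≤ M := by
    intro t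
    have a1 : DifferentiableAt ℂ (cx Φ) (t : ℂ) :=
      (hI.hol Φ hΦ).differentiableAt (hopen.mem_nhds (hmem t))
    have a2 : HasDerivAt (fun y : ℝ => cx Φ (y : ℂ)) (deriv (cx Φ) t) t := a1.hasDerivAt.comp_ofReal
    have a3 : (fun y : ℝ => cx Φ (y : ℂ)) = fun y => ((Φ y : ℝ) : ℂ) := funext fun y => hI.real Φ hΦ y
    rw [a3] at a2
    have a4 : HasDerivAt (fun y : ℝ => ((Φ y : ℝ) : ℂ)) ((deriv Φ t : ℝ) : ℂ) t :=
      ((hΦ.1.diff t).hasDerivAt).ofReal_comp
    have a5 := a4.unique a2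
    have a6 := hI.lip Φ hΦ (t : ℂ) (hmem t)
    rw [← a5, Complex.norm_real] at a6
    exact a6
  have := Convex.norm_image_sub_le_of_norm_deriv_le (f := Φ) (s := Set.univ) (x := x') (y := x)
    (fun t _ => hΦ.1.diff t) (fun t _ => hd t) convex_univ (Set.mem_univ _) (Set.mem_univ _)
  simpa [Real.norm_eq_abs] using this

/-- D8 -/
theorem st_D8 (h1 : ST_D1) (h2 : ST_D2) : ST_D8 := by
  classical
  intro n p hn C hC ε hε
  have h2' := h2.2.2.2.2.1
  obtain ⟨M, hM, hlip⟩ := d8_lip h1 n hn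
  obtain ⟨δ, hδ, huc⟩ := hC.uc (ε / 2) (half_pos hε)
  -- choose the grid
  set δ' : ℝ := min (δ / 2) (1 / 8) with hδ'
  have hδ'pos : 0 < δ' := lt_min (half_pos hδ) (by norm_num)
  obtain ⟨N0, hN0⟩ := exists_nat_gt (2 * M / δ')
  have hN0' : 0 < N0 := by
    have : (0 : ℝ) < N0 := lt_trans (by positivity) hN0
    exact_mod_cast this
  have hN0r : (0 : ℝ) < N0 := by exact_mod_cast hN0'
  have hsmall : 2 * M / N0 < δ' := by
    rw [div_lt_iff₀ hN0r]
    rw [div_lt_iff₀ hδ'pos] at hN0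
    linarith
  let x : Fin N0 → ℝ := fun k => (k : ℕ) / (N0 : ℝ)
  let τ : Sq → UnitAddTorus (Fin (p + 1) × Fin N0) := fun y bk => ((y bk.1 (x bk.2) : ℝ) : UnitAddCircle)
  have key : ∀ y ∈ {y : Sq | ∀ k, y k ∈ AA n}, ∀ y' ∈ {y : Sq | ∀ k, y k ∈ AA n},
      dist (τ y) (τ y') ≤ δ' → ‖C y - C y'‖ ≤ ε / 2 := by
    intro y hy y' hy' hd
    have h2 : ∀ b : ℕ, ∃ t : ℤ, b ≤ p → ∀ x, |y b x + t - y' b x| ≤ δ := by
      intro b
      by_cases hb : b ≤ p
      · have h3 : ∀ k : Fin N0, dist ((y b ((k : ℕ) / (N0 : ℝ)) : ℝ) : UnitAddCircle)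
            ((y' b ((k : ℕ) / (N0 : ℝ)) : ℝ) : UnitAddCircle) ≤ δ' := by
          intro k
          exact ((dist_pi_le_iff hδ'pos.le).1 hd) (⟨b, Nat.lt_succ_of_le hb⟩, k)
        have h4 : 2 * δ' + 2 * M / N0 < 1 := by
          have : δ' ≤ 1 / 8 := min_le_right _ _
          linarith
        obtain ⟨t, ht⟩ := d8_grid (y b) (y' b) (hy b).1.per (hy' b).1.per M hM.le (hlip _ (hy b)) (hlip _ (hy' b))
          N0 hN0' δ' h4 h3
        refine ⟨t, fun _ x => (ht x).trans ?_⟩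
        have : δ' ≤ δ / 2 := min_le_left _ _
        linarith
      · exact ⟨0, fun h => absurd h hb⟩
    choose t ht using h2
    have e1 := hC.zinv y t hy
    rw [← e1]
    exact huc (fun k x => y k x + (t k : ℝ)) y' (fun k => (h2' n hn (y k) (hy k) (t k)).1) hy'
      (fun k hk x => ht k hk x)
  obtain ⟨G, hG⟩ := d8_interp {y : Sq | ∀ k, y k ∈ AA n} τ C (ε / 2) δ' hδ'pos key
  obtain ⟨J, a, m, hm⟩ := d8_torus G (ε / 2) (half_pos hε)
  refine ⟨J, N0, a, fun i b k => m i (b, k), x, ?_⟩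
  intro y hy
  have h5 := hG y hy
  have h6 := hm (τ y)
  have h7 : ∀ i, UnitAddTorus.mFourier (m i) (τ y) = ∏ b : Fin (p + 1),
      Complex.exp (2 * π * Complex.I * ∑ k, (m i (b, k) : ℂ) * (y b (x k) : ℂ)) := by
    intro i
    show (∏ bk : Fin (p + 1) × Fin N0, fourier (m i bk) (τ y bk)) = _
    rw [Fintype.prod_prod_type]
    refine Finset.prod_congr rfl fun b _ => ?_
    rw [Finset.mul_sum, Complex.exp_sum]
    refine Finset.prod_congr rfl fun k _ => ?_
    show fourier (m i (b, k)) ((y b (x k) : ℝ) : UnitAddCircle) = _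
    rw [fourier_coe_apply]
    congr 1
    push_cast
    ring
  have h8 : ∑ i, a i * ∏ b : Fin (p + 1), Complex.exp (2 * π * Complex.I * ∑ k, ((fun i b k => m i (b, k)) i b k : ℂ) * (y b (x k) : ℂ))
      = ∑ i, a i * UnitAddTorus.mFourier (m i) (τ y) := Finset.sum_congr rfl fun i _ => by rw [h7 i]
  rw [h8]
  have e3 : C y - ∑ i, a i * UnitAddTorus.mFourier (m i) (τ y)
      = -(G (τ y) - C y) + (G (τ y) - ∑ i, a i * UnitAddTorus.mFourier (m i) (τ y)) := by ring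
  rw [e3]
  refine (norm_add_le _ _).trans ?_
  rw [norm_neg]
  linarith

end

end Pool.Agent.Helper67.DO
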