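import Pool.Agent.Helper97.SL.Rj
import Pool.Agent.Helper31.EC.Uns

/-! Events: a function which is small on an event of an extension is small on an event of the space itself. -/

set_option autoImplicit false

namespace Pool.Agent.Helper21.DO

open Finset Filter Topology Pool.Agent.Helper69.RK Pool.Agent.Helper31.EC Pool.Agent.Helper31.EC.Sp
open Pool.Agent.Helper31.EC.QS Pool.Agent.Helper97.SL

noncomputable section

variable {S : Sp}

theorem Typ_finset {κ : Type} {A : κ → ∀ k, (S.F k).Ω → Prop} (h : ∀ a, Typ (A a)) (s : Finset κ) :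
    Typ (fun k ω => ∀ a ∈ s, A a k ω) := by
  classical
  induction s using Finset.induction_on with
  | empty => exact Typ_true.mono (Eventually.of_forall fun k ω _ _ a ha => absurd ha (Finset.notMem_empty a))
  | insert a s _ ih =>
    refine ((h a).and ih).mono (Eventually.of_forall ?_)
    intro k ω _ h1 b hb
    rcases Finset.mem_insert.mp hb with h2 | h2
    · rw [h2]
      exact h1.1
    · exact h1.2 b h2

/-- small functions on an event of an extension are small on an event of the space -/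
theorem event_down {D : Sp} (p : Pj D S) (E : ∀ k, (D.F k).Ω → Prop) (hE : 0 < ul (D.pr E)) {κ : Type} [Fintype κ]
    (c : κ → QS S) {r : ℝ} (hr : r ≤ 1) (h : ∀ a, QS.rest E hE (p.qs (c a)) ∈ QS.Id _ r) :
    ∃ (E' : ∀ k, (S.F k).Ω → Prop) (hE' : 0 < ul (S.pr E')), ∀ a, QS.rest E' hE' (c a) ∈ QS.Id _ r := by
  have h0 : ∀ a, ∃ f : TR S, QS.mk f = c a := fun a => QS.mk_surj (c a)
  choose f hf using h0
  have h1 : ∀ a, TR.Ag r (TR.rest E (p.tr (f a))) 0 := by
    intro a
    have h2 := h a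
    rw [← hf a, p.qs_mk, QS.rest_mk, mk_mem_Id hr] at h2
    exact h2
  choose A K hA hK hh using h1
  obtain ⟨E', hE'⟩ : ∃ E' : ∀ k, (S.F k).Ω → Prop, E' = fun k ω => ∀ a, |TR.ev (f a) k ω| ≤ K a k * S.dl r k := ⟨_, rfl⟩
  obtain ⟨B, hBd⟩ : ∃ B : ∀ k, (D.F k).Ω → Prop, B = fun k ω => ∀ a ∈ (Finset.univ : Finset κ), A a k ω := ⟨_, rfl⟩
  have hB : Typ (S := D.rest E) B := by
    rw [hBd]
    exact Typ_finset hA (Finset.univ : Finset κ)
  -- probabilities
  have key : ∀ᶠ k in UF, D.pr E k ≤ S.pr E' k + mass (res ((D.rest E).F k).μ (fun ω => ¬ B k ω)) := by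
    have h3 : ∀ᶠ k in UF, ∀ a, ∀ ω, ((D.rest E).F k).μ ω ≠ 0 → A a k ω →
        |TR.ev (TR.rest E (p.tr (f a))) k ω - TR.ev (0 : TR (D.rest E)) k ω| ≤ K a k * (D.rest E).dl r k := by
      rw [Filter.eventually_all]
      exact hh
    filter_upwards [h3] with k hk
    have h4 : S.pr E' k = D.pr (fun k ω => E' k (p.π k ω)) k := by rw [pr_comp]
    rw [h4]
    show ∑ ω, res (D.F k).μ (E k) ω ≤ ∑ ω, res (D.F k).μ (fun ω => E' k (p.π k ω)) ω +
      ∑ ω, res ((D.F k).restμ (E k)) (fun ω => ¬ B k ω) ω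
    have h5 : ∀ ω, 0 ≤ res ((D.F k).restμ (E k)) (fun ω => ¬ B k ω) ω := fun ω => ((D.rest E).F k).res_nonneg _ ω
    refine le_trans (Finset.sum_le_sum fun ω _ => ?_) (le_of_eq Finset.sum_add_distrib)
    by_cases hω : E k ω
    · by_cases h6 : (D.F k).μ ω = 0
      · rw [res_pos _ _ _ hω, h6]
        exact add_nonneg ((D.F k).res_nonneg _ ω) (h5 ω)
      · have h7 : (D.F k).pb (E k) ≠ 0 := by
          intro hc
          have h8 := (D.F k).res_zero_of_pb (E k) hc ω
          rw [res_pos _ _ _ hω] at h8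
          exact h6 h8
        by_cases h8 : B k ω
        · have h9 : E' k (p.π k ω) := by
            rw [hE']
            intro a
            rw [hBd] at h8
            have h10 := hk a ω ((D.F k).rest_supp' (E k) ω h6 hω) (h8 a (Finset.mem_univ a))
            rw [TR.ev_zero, sub_zero] at h10
            have h11 : (D.rest E).dl r k = S.dl r k := by
              show (2 : ℝ) ^ (-(r * (D.F k).n)) = (2 : ℝ) ^ (-(r * (S.F k).n))
              rw [p.hn k]
            rw [h11] at h10
            exact h10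
          rw [res_pos _ _ _ hω, res_pos (D.F k).μ (fun ω => E' k (p.π k ω)) ω h9]
          exact le_add_of_nonneg_right (h5 ω)
        · rw [res_pos _ _ _ hω, res_pos ((D.F k).restμ (E k)) (fun ω => ¬ B k ω) ω h8, (D.F k).restμ_eq _ h7]
          beta_reduce
          rw [res_pos _ _ _ hω]
          refine le_add_of_nonneg_of_le ((D.F k).res_nonneg _ ω) ?_
          have h9 : (1 : ℝ) ≤ ((D.F k).pb (E k))⁻¹ :=
            (one_le_inv₀ (lt_of_le_of_ne ((D.F k).pb_nonneg _) (Ne.symm h7))).mpr ((D.F k).pb_le_one _)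
          exact le_mul_of_one_le_left ((D.F k).nn ω) h9
    · rw [res_neg _ _ _ hω]
      exact add_nonneg ((D.F k).res_nonneg _ ω) (h5 ω)
  have hpos : 0 < ul (S.pr E') := by
    have h3 := (ul_tendsto (UB_pr E)).sub (show Tendsto (fun k => mass (res ((D.rest E).F k).μ (fun ω => ¬ B k ω))) UF (𝓝 0) from hB)
    rw [sub_zero] at h3
    have h4 := ul_tendsto (UB_pr E')
    refine lt_of_lt_of_le hE (le_of_tendsto_of_tendsto h3 h4 ?_)
    filter_upwards [key] with k hk
    linarith
  refine ⟨E', hpos, fun a => ?_⟩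
  rw [← hf a, QS.rest_mk, mk_mem_Id hr]
  have hKS : (S.rest E').Sub (K a) := by
    refine ⟨(hK a).1, ?_⟩
    have h4 : ∀ k, (D.F k).n = (S.F k).n := p.hn
    have h5 : Tendsto (fun k => Real.logb 2 (K a k + 2) / (D.F k).n) UF (𝓝 0) := (hK a).2
    have h6 : (fun k => Real.logb 2 (K a k + 2) / (D.F k).n) = fun k => Real.logb 2 (K a k + 2) / (S.F k).n :=
      funext fun k => by rw [h4 k]
    rw [h6] at h5
    exact h5
  refine ⟨fun _ _ => True, K a, Typ_true, hKS, ?_⟩
  have h3 := ul_tendsto (UB_pr E')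
  filter_upwards [h3.eventually (lt_mem_nhds hpos)] with k hk ω hω _
  have h4 := ((S.F k).rest_supp (E' k) ω hω).2 (ne_of_gt hk)
  rw [hE'] at h4
  rw [TR.ev_zero, sub_zero]
  exact h4 a

end

end Pool.Agent.Helper21.DO
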