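import Pool.Agent.Helper21.DO.Lin
import Pool.Agent.Helper21.DO.K3
import Pool.Agent.Helper96.FLT.Th

/-! D1 = 1, the second kill (K = 2): velocities which are real polynomials of the base point `(t, f)`; the thin
rectangle of thickness one half and RULE S: the velocity of the top coordinate does not depend on `f` up to level
one half. -/

set_option autoImplicit false

namespace Pool.Agent.Helper21.DO

open Finset Filter Topology Pool.Agent.Helper69.RK Pool.Agent.Helper31.EC Pool.Agent.Helper31.EC.Sp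
open Pool.Agent.Helper31.EC.QS Pool.Agent.Helper57.TA Pool.Agent.Helper96.FLT Pool.Agent.Helper38.NS

noncomputable section

variable {S : Sp}

/-- `1 / (n + 1)` -/
def iv (S : Sp) (n : ℕ) : QS S := cR S (1 / (n + 1))

theorem iv_mul (n : ℕ) : iv S n * (n + 1) = 1 := by
  have h1 : cR S (1 / ((n : ℝ) + 1)) * cR S ((n : ℝ) + 1) = 1 := by
    rw [← map_mul, one_div, inv_mul_cancel₀ (by positivity), map_one]
  rw [map_add, map_natCast, map_one] at h1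
  exact h1

theorem dg_iv (n : ℕ) (A : S.L) : QS.dg (iv S n) 1 ≤ A := (dg_cR _ _).le.trans bot_le

theorem qs_iv {T : Sp} (p : Pj T S) (n : ℕ) : p.qs (iv S n) = iv T n := qs_cR p _

theorem PK1_integ {A : S.L} {P : Polynomial (QS S)} (hP : P ∈ PK1 A) : integ (iv S) P ∈ PK1 A := by
  intro n
  rcases n with _ | n
  · rw [coeff_integ_zero]
    exact (Kn S 1 le_rfl A).zero_mem
  · rw [coeff_integ_succ]
    exact (Kn S 1 le_rfl A).mul_mem (dg_iv n A) (hP n)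

theorem PK1_ln {A : S.L} {a x : QS S} (ha : QS.dg a 1 ≤ A) (hx : QS.dg x 1 ≤ A) (i : Fin 2) : ln a x i ∈ PK1 A := by
  fin_cases i
  · exact PK1_X A
  · exact (PK1 A).add_mem (PK1_C ha) ((PK1 A).mul_mem (PK1_C hx) (PK1_X A))

theorem PK1_Gl {A : S.L} {a x : QS S} (ha : QS.dg a 1 ≤ A) (hx : QS.dg x 1 ≤ A) {Ψ : MvPolynomial (Fin 2) (QS S)}
    (hΨ : Ψ ∈ PK A) : Gl (iv S) Ψ a x ∈ PK1 A :=
  PK1_integ (PK1_aeval hΨ _ (PK1_ln ha hx))

theorem eval_PK1 {A : S.L} {P : Polynomial (QS S)} (hP : P ∈ PK1 A) {t : QS S} (ht : QS.dg t 1 ≤ A) :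
    QS.dg (P.eval t) 1 ≤ A := by
  rw [Polynomial.eval_eq_sum_range]
  exact (Kn S 1 le_rfl A).sum_mem fun n _ => (Kn S 1 le_rfl A).mul_mem (hP n) ((Kn S 1 le_rfl A).pow_mem ht n)

/-- RULE S for two families of lines on one space -/
def RuleS2 {D : Sp} {d N : ℕ} (s s' : FV D d N) (w : Fin N → ℝ) : Prop :=
  ∀ (τ : QS D) (u e : Fin N → QS D) (B : D.L) (y σ : ℝ),
    0 ≤ y → y ≤ 1 → 0 ≤ σ → (∀ i, w i * σ ≤ 1) →
    (∀ i, s.a i = s'.a i) → (∀ i, s.x i = s'.x i) →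
    (∀ i, s'.b i = s.b i + τ * u i + e i) →
    τ ∈ QS.Id D y → s.iL ≤ B → vd u 1 ≤ B → h (QS.dg τ 1) B = 1 - y →
    (∀ i, e i ∈ QS.Id D (w i * σ)) →
    I s.iB (B ⊔ QS.dg τ 1 ⊔ vd e 1) s.iL = 0 →
    I s'.iB (B ⊔ QS.dg τ 1 ⊔ vd e 1) s.iL = 0 →
    ∀ i, u i ∈ QS.Id D (w i * σ - y)

/-- helper96's RULE S is `RuleS2` for the two pullbacks -/
theorem ruleS_iff {d N : ℕ} (s : FV S d N) (w : Fin N → ℝ) :
    s.RuleS w ↔ ∀ (D : Sp) (p p' : Pj D S), RuleS2 (s.pull p) (s.pull p') w := by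
  unfold FV.RuleS RuleS2
  constructor
  · intro h D p p' τ u e B y σ h0 h1 h2 h3 ha hx hb hτ hL hu h4 he i0 i1
    rw [FV.pull_iL] at hL i0 i1
    rw [FV.pull_iB] at i0 i1
    exact h D p p' τ u e B y σ h0 h1 h2 h3 ha hx hb hτ hL hu h4 he i0 i1
  · intro h D p p' τ u e B y σ h0 h1 h2 h3 ha hx hb hτ hL hu h4 he i0 i1
    refine h D p p' τ u e B y σ h0 h1 h2 h3 ha hx hb hτ ?_ hu h4 he ?_ ?_
    · rw [FV.pull_iL]
      exact hL
    · rw [FV.pull_iL, FV.pull_iB]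
      exact i0
    · rw [FV.pull_iL, FV.pull_iB]
      exact i1

/-- CLOSED LOOP of thickness one half over a base line: the first parallel line `s`, the last one `s'` (over the same
base line), heights `t0`, `t1`, thickness `τ`, direction `u` of the transversals, velocities `Ψ` -/
structure Loop {D : Sp} {N : ℕ} (s s' : FV D 1 N) where
  Ψ : Fin N → MvPolynomial (Fin 2) (QS D)
  t0 : QS D
  t1 : QS D
  τ : QS D
  u : QS D
  hΨ : ∀ i, Ψ i ∈ PK ⊥
  ha : ∀ i, s.a i = s'.a i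
  hx : ∀ i, s.x i = s'.x i
  mem : τ ∈ QS.Id D (1 / 2)
  hτ : h (QS.dg τ 1) (s.iL ⊔ QS.dg u 1 ⊔ QS.dg t0 1 ⊔ QS.dg t1 1) = 1 / 2
  ht1 : h (QS.dg t1 1) (s.iL ⊔ QS.dg u 1 ⊔ QS.dg t0 1) = 1
  hu : IsUnit (u - s.x 0)
  real : Rl ![t0, s.a 0 + s.x 0 * t0] ⊥
  i0 : I s.iB (s.iL ⊔ QS.dg u 1 ⊔ QS.dg t0 1 ⊔ QS.dg t1 1 ⊔ QS.dg τ 1) s.iL = 0
  i1 : I s'.iB (s.iL ⊔ QS.dg u 1 ⊔ QS.dg t0 1 ⊔ QS.dg t1 1 ⊔ QS.dg τ 1) s.iL = 0
  eq : ∀ i, s'.b i = s.b i + loop (iv D) (Ψ i) (s.a 0) (s.x 0) u t0 t1 τ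

/-- **SECOND KILL (K = 2), the thin rectangle.** Under RULE S the velocity of a coordinate of highest weight does not
depend on `f`, up to level one half. -/
theorem Loop.kill {D : Sp} {N : ℕ} {s s' : FV D 1 N} (g : Loop s s') {W : Fin N → ℝ} (hW : RuleS2 s s' W) {M : ℝ}
    (hM : 0 < M) (hWM : ∀ i, W i ≤ M) (i : Fin N) (hi : W i = M) (m : Fin 2 →₀ ℕ) :
    (MvPolynomial.pderiv 1 (g.Ψ i)).coeff m ∈ QS.Id D (1 / 2) := by
  obtain ⟨a, ha⟩ : ∃ a, a = s.a 0 := ⟨_, rfl⟩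
  obtain ⟨x, hx⟩ : ∃ x, x = s.x 0 := ⟨_, rfl⟩
  have hττ : g.τ * g.τ = 0 := by
    have h1 := mul_mem_Id g.mem g.mem
    rw [show (1 / 2 : ℝ) + 1 / 2 = 1 by norm_num] at h1
    exact mem_Id_one.mp h1
  obtain ⟨L, hL⟩ : ∃ L, L = s.iL := ⟨_, rfl⟩
  have hLe : L = vd s.a 1 ⊔ vd s.x 1 := by
    rw [hL]
    rfl
  have la : QS.dg a 1 ≤ L := by
    rw [ha, hLe]
    exact (dg_le_vd s.a 1 0).trans le_sup_left
  have lx : QS.dg x 1 ≤ L := by
    rw [hx, hLe]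
    exact (dg_le_vd s.x 1 0).trans le_sup_right
  obtain ⟨J, hJ⟩ : ∃ J : Fin N → QS D → QS D, J = fun j t => (Gl (iv D) (MvPolynomial.pderiv 1 (g.Ψ j)) a x).eval t :=
    ⟨_, rfl⟩
  have hP : ∀ j, MvPolynomial.pderiv 1 (g.Ψ j) ∈ PK L := fun j => PK_mono bot_le (pderiv_mem (g.hΨ j) 1)
  obtain ⟨B, hB⟩ : ∃ B, B = s.iL ⊔ QS.dg g.u 1 ⊔ QS.dg g.t0 1 ⊔ QS.dg g.t1 1 := ⟨_, rfl⟩
  have lJ : ∀ j t, QS.dg (J j t) 1 ≤ L ⊔ QS.dg t 1 := by
    intro j t
    rw [hJ]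
    exact eval_PK1 (PK1_Gl (la.trans le_sup_left) (lx.trans le_sup_left) (PK_mono le_sup_left (hP j)))
      le_sup_right
  obtain ⟨U, hU⟩ : ∃ U : Fin N → QS D, U = fun j => (g.u - x) * (J j g.t1 - J j g.t0) := ⟨_, rfl⟩
  have lU : vd U 1 ≤ B := by
    rw [vd_le]
    intro j
    rw [hU]
    have m0 : ∀ f : QS D, QS.dg f 1 ≤ B ↔ f ∈ Kn D 1 le_rfl B := fun f => Iff.rfl
    have m1 := (m0 g.u).mp (by order)
    have m2 := (m0 x).mp (by order)
    have a1 := lJ j g.t1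
    have a0 := lJ j g.t0
    have m3 := (m0 (J j g.t1)).mp (by order)
    have m4 := (m0 (J j g.t0)).mp (by order)
    exact Subring.mul_mem _ (Subring.sub_mem _ m1 m2) (Subring.sub_mem _ m3 m4)
  have hσ1 : ∀ j, W j * (1 / M) ≤ 1 := by
    intro j
    rw [mul_one_div, div_le_one hM]
    exact hWM j
  have key := hW g.τ U (fun _ => 0) B (1 / 2) (1 / M) (by norm_num) (by norm_num) (by positivity) hσ1
    g.ha g.hx ?_ g.mem ?_ lU ?_ (fun _ => (QS.Id D _).zero_mem) ?_ ?_ i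
  · -- the slope of the loop is small: coefficients
    rw [hi, mul_one_div, div_self hM.ne', show (1 : ℝ) - 1 / 2 = 1 / 2 by norm_num, hU] at key
    beta_reduce at key
    have h12 : (1 / 2 : ℝ) ≤ 1 := by norm_num
    -- step 1: the difference of the slopes is a unit
    have k1 : J i g.t1 - J i g.t0 ∈ QS.Id D (1 / 2) := by
      have h1 := g.hu
      rw [← hx] at h1
      obtain ⟨w, hw⟩ := h1.exists_left_inv
      have h2 := (QS.Id D (1 / 2)).mul_mem_left w key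
      rw [← mul_assoc, hw, one_mul] at h2
      exact h2
    -- step 2: in the variable `t1`
    have k2 : ∀ n, (MvPolynomial.aeval (ln a x) (MvPolynomial.pderiv 1 (g.Ψ i))).coeff n ∈ QS.Id D (1 / 2) := by
      intro n
      obtain ⟨P, hPd⟩ : ∃ P : Polynomial (QS D), P = Gl (iv D) (MvPolynomial.pderiv 1 (g.Ψ i)) a x -
        Polynomial.C (J i g.t0) := ⟨_, rfl⟩
      obtain ⟨A, hA⟩ : ∃ A, A = L ⊔ QS.dg g.u 1 ⊔ QS.dg g.t0 1 := ⟨_, rfl⟩
      have a0 := lJ i g.t0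
      have hLA : L ≤ A := by rw [hA]; order
      have hPA : P ∈ PK1 A := by
        rw [hPd]
        exact (PK1 A).sub_mem (PK1_Gl (la.trans hLA) (lx.trans hLA) (PK_mono hLA (hP i)))
          (PK1_C (a0.trans (by rw [hA]; order)))
      have hPe : P.eval g.t1 = J i g.t1 - J i g.t0 := by
        rw [hPd, Polynomial.eval_sub, Polynomial.eval_C, hJ]
      have hr : h (QS.dg g.t1 1) A = 1 := by
        rw [hA, hL]
        exact g.ht1
      have h1 := Pool.Agent.Helper21.DO.coeff_small P g.t1 hPA hr h12 (by rw [hPe]; exact k1) (n + 1)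
      rw [hPd, Polynomial.coeff_sub, Polynomial.coeff_C_succ, sub_zero] at h1
      unfold Gl at h1
      rw [coeff_integ_succ] at h1
      have h2 := (QS.Id D (1 / 2)).mul_mem_left ((n : QS D) + 1) h1
      have h3 : ((n : QS D) + 1) * (iv D n * (MvPolynomial.aeval (ln a x) (MvPolynomial.pderiv 1 (g.Ψ i))).coeff n) =
          (MvPolynomial.aeval (ln a x) (MvPolynomial.pderiv 1 (g.Ψ i))).coeff n := by
        linear_combination ((MvPolynomial.aeval (ln a x) (MvPolynomial.pderiv 1 (g.Ψ i))).coeff n) * iv_mul (S := D) n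
      rw [h3] at h2
      exact h2
    -- step 3: at the point
    have k3 := eval_coeff_mem _ g.t0 k2
    rw [eval_ln, ha, hx] at k3
    exact mv_small zero_lt_one le_rfl (Rl_iff_Rt.mp g.real) h12 le_rfl
      (PKr_of_PK le_rfl (pderiv_mem (g.hΨ i) 1)) k3 m
  · intro j
    rw [g.eq j, loop_eq iv_mul _ _ _ _ _ _ _ hττ, hU, hJ, ha, hx]
    ring
  · rw [hB]
    order
  · rw [hB, g.hτ]
    norm_num
  · have e1 : vd (fun _ : Fin N => (0 : QS D)) 1 ≤ B := by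
      rw [vd_le]
      intro _
      exact (Kn D 1 le_rfl B).zero_mem
    exact ind_of g.i0 le_rfl (by order) (by order) (by rw [← hB]; order)
  · have e1 : vd (fun _ : Fin N => (0 : QS D)) 1 ≤ B := by
      rw [vd_le]
      intro _
      exact (Kn D 1 le_rfl B).zero_mem
    exact ind_of g.i1 le_rfl (by order) (by order) (by rw [← hB]; order)

end

end Pool.Agent.Helper21.DO
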