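import Pool.Agent.Helper21.DO.K2r
import Pool.Agent.Helper21.DO.Ev

/-! D1 = 1, the second kill (K = 2), end: from the small derivative to a label of level one half. -/

set_option autoImplicit false

namespace Pool.Agent.Helper21.DO

open Finset Filter Topology Pool.Agent.Helper69.RK Pool.Agent.Helper31.EC Pool.Agent.Helper31.EC.Sp
open Pool.Agent.Helper31.EC.QS Pool.Agent.Helper57.TA Pool.Agent.Helper96.FLT Pool.Agent.Helper38.NS
open Pool.Agent.Helper96.FLC Pool.Agent.Helper50.VC Pool.Agent.Helper97.SL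

noncomputable section

variable {S : Sp}

section alg

variable {A : Type} [CommRing A]

theorem coeff_of_pderiv {iv : ℕ → A} (hiv : ∀ n : ℕ, iv n * (n + 1) = 1) (I : Ideal A) (Ψ : MvPolynomial (Fin 2) A)
    (h : ∀ m, (MvPolynomial.pderiv 1 Ψ).coeff m ∈ I) (m : Fin 2 →₀ ℕ) (hm : m 1 ≠ 0) : Ψ.coeff m ∈ I := by
  have h1 : Finsupp.single 1 1 ≤ m := Finsupp.single_le_iff.mpr (by omega)
  have h2 := h (m - Finsupp.single 1 1)
  have h3 : m - Finsupp.single 1 1 + Finsupp.single 1 1 = m := tsub_add_cancel_of_le h1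
  rw [MvPolynomial.coeff_pderiv, h3] at h2
  obtain ⟨n, hn⟩ : ∃ n, n = (m - (Finsupp.single 1 1 : Fin 2 →₀ ℕ)) 1 := ⟨_, rfl⟩
  rw [← hn] at h2
  have h4 := I.mul_mem_right (iv n) h2
  have h5 : Ψ.coeff m * ((n : A) + 1) * iv n = Ψ.coeff m := by
    linear_combination Ψ.coeff m * hiv n
  rw [h5] at h4
  exact h4

/-- a polynomial whose coefficients with `f` are in `I`: its primitive is independent of the line modulo `I` -/
theorem Gl_indep (iv : ℕ → A) (I : Ideal A) (Ψ : MvPolynomial (Fin 2) A)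
    (h : ∀ m : Fin 2 →₀ ℕ, m 1 ≠ 0 → Ψ.coeff m ∈ I) (a x t : A) :
    (Gl iv Ψ a x).eval t - (Gl iv Ψ 0 0).eval t ∈ I := by
  classical
  have h2 : MvPolynomial.aeval (ln a x) Ψ - MvPolynomial.aeval (ln 0 0) Ψ ∈ Ideal.map Polynomial.C I := by
    have h3 : ∀ b y : A, MvPolynomial.aeval (ln b y) Ψ =
        ∑ m ∈ Ψ.support, Polynomial.C (Ψ.coeff m) * (ln b y 0 ^ (m 0) * ln b y 1 ^ (m 1)) := by
      intro b y
      rw [MvPolynomial.aeval_def, MvPolynomial.eval₂_eq']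
      apply Finset.sum_congr rfl
      intro m _
      rw [Fin.prod_univ_two]
      rfl
    rw [h3, h3, ← Finset.sum_sub_distrib]
    apply Ideal.sum_mem
    intro m _
    by_cases hm : m 1 = 0
    · rw [hm, pow_zero, pow_zero]
      have h4 : ln a x 0 = ln (0 : A) 0 0 := rfl
      rw [h4, sub_self]
      exact Ideal.zero_mem _
    · have h4 : Polynomial.C (Ψ.coeff m) ∈ Ideal.map Polynomial.C I := Ideal.mem_map_of_mem _ (h m hm)
      exact Ideal.sub_mem _ (Ideal.mul_mem_right _ _ h4) (Ideal.mul_mem_right _ _ h4)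
  rw [Ideal.mem_map_C_iff] at h2
  have h3 : ∀ n, (Gl iv Ψ a x - Gl iv Ψ 0 0).coeff n ∈ I := by
    intro n
    unfold Gl
    rw [← map_sub]
    rcases n with _ | n
    · rw [coeff_integ_zero]
      exact I.zero_mem
    · rw [coeff_integ_succ]
      exact I.mul_mem_left _ (h2 n)
  rw [← Polynomial.eval_sub, Polynomial.eval_eq_sum_range]
  exact Ideal.sum_mem _ fun n _ => I.mul_mem_right _ (h3 n)

end alg

/-- **SECOND KILL (K = 2), on the space itself**: on an event of positive probability the velocity of a coordinate of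
highest weight does not depend on `f` up to level one half -/
theorem kill2 {k N : ℕ} {s : VB S 1 k N} (hs : s.Hyp) (V : Vel s) {W : Fin N → ℝ} (hW : RuleSE s.fv W) {M : ℝ}
    (hM : 0 < M) (hWM : ∀ i, W i ≤ M) (i : Fin N) (hi : W i = M) (w : s.fv.Star)
    (hw : ∀ a, w.p1.qs (cf V.Ψ a) = w.p2.qs (cf V.Ψ a)) (E : ∀ k, (w.D.F k).Ω → Prop) (hE : 0 < ul (w.D.pr E))
    (hu : IsUnit (QS.rest E hE (w.p1.qs (s.x 0) - w.p2.qs (s.x 0)))) :
    ∃ (E' : ∀ k, (S.F k).Ω → Prop) (hE' : 0 < ul (S.pr E')),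
      ∀ m, QS.rest E' hE' ((MvPolynomial.pderiv 1 (V.Ψ i)).coeff m) ∈ QS.Id _ (1 / 2) := by
  obtain ⟨D, π, p', g, hg⟩ := exists_loop hs V w hw E hE hu
  have h1 := g.kill (hW D (π.comp w.p2) p' _ (rj_pos π E hE)) hM hWM i hi
  obtain ⟨E', hE', h2⟩ := event_down (π.comp w.p2) _ (rj_pos π E hE)
    (fun m : (MvPolynomial.pderiv 1 (V.Ψ i)).support => (MvPolynomial.pderiv 1 (V.Ψ i)).coeff m)
    (show (1 / 2 : ℝ) ≤ 1 by norm_num) (by
      intro m
      have h3 := h1 m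
      rw [hg i, MvPolynomial.pderiv_map, MvPolynomial.coeff_map] at h3
      exact h3)
  refine ⟨E', hE', fun m => ?_⟩
  by_cases hm : m ∈ (MvPolynomial.pderiv 1 (V.Ψ i)).support
  · exact h2 ⟨m, hm⟩
  · rw [MvPolynomial.notMem_support_iff.mp hm, map_zero]
    exact (QS.Id _ _).zero_mem

/-- a velocity which does not depend on `f` up to level `r`: the integrated coordinate is known to every line, up to
level `r` -/
theorem label {Ψ : MvPolynomial (Fin 2) (QS S)} {r : ℝ} (h : ∀ m, (MvPolynomial.pderiv 1 Ψ).coeff m ∈ QS.Id S r)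
    (a x t : QS S) : (Gl (iv S) Ψ a x).eval t - (Gl (iv S) Ψ 0 0).eval t ∈ QS.Id S r :=
  Gl_indep (iv S) (QS.Id S r) Ψ (fun m hm => coeff_of_pderiv iv_mul (QS.Id S r) Ψ h m hm) a x t

/-- LABEL FORM: lines `(a, x)` with curves `z = b + ∫ Ψ`: the digits of level `r` of `z - H(t)` are known to the line -/
theorem label_dg {Ψ : MvPolynomial (Fin 2) (QS S)} (hΨ : Ψ ∈ PK (⊥ : S.L)) {r : ℝ} (hr : r ≤ 1)
    (h : ∀ m, (MvPolynomial.pderiv 1 Ψ).coeff m ∈ QS.Id S r) (a x t z b : QS S)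
    (hz : z = b + (Gl (iv S) Ψ a x).eval t) :
    QS.dg (z - (Gl (iv S) Ψ 0 0).eval t) r ≤ QS.dg b 1 ∧
      QS.dg z r ≤ QS.dg (z - (Gl (iv S) Ψ 0 0).eval t) r ⊔ QS.dg t 1 := by
  constructor
  · have h1 : z - (Gl (iv S) Ψ 0 0).eval t - b ∈ QS.Id S r := by
      rw [hz]
      have h2 := label h a x t
      have h3 : b + (Gl (iv S) Ψ a x).eval t - (Gl (iv S) Ψ 0 0).eval t - b =
          (Gl (iv S) Ψ a x).eval t - (Gl (iv S) Ψ 0 0).eval t := by ring
      rw [h3]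
      exact h2
    rw [dg_eq_of_sub_mem h1 le_rfl hr]
    exact dg_mono b hr
  · have h1 : QS.dg ((Gl (iv S) Ψ 0 0).eval t) 1 ≤ QS.dg t 1 :=
      eval_PK1 (PK1_Gl (by
        have h2 : (0 : QS S) ∈ Kn S 1 le_rfl (QS.dg t 1) := (Kn S 1 le_rfl _).zero_mem
        exact h2) (by
        have h2 : (0 : QS S) ∈ Kn S 1 le_rfl (QS.dg t 1) := (Kn S 1 le_rfl _).zero_mem
        exact h2) (PK_mono bot_le hΨ)) le_rfl
    have h2 := dg_add_le (z - (Gl (iv S) Ψ 0 0).eval t) ((Gl (iv S) Ψ 0 0).eval t) hr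
    rw [sub_add_cancel] at h2
    exact h2.trans (sup_le_sup_left ((dg_mono _ hr).trans h1) _)

end

end Pool.Agent.Helper21.DO
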