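import Pool.Agent.Helper21.DO.K2
import Pool.Agent.Helper96.FLC.Rc
import Pool.Agent.Helper97.SL.Rj
import Pool.Agent.Helper82.TP.Base

/-! D1 = 1, the second kill (K = 2): the closed loop from helper96's curved rectangle (thickness one half along the
transversals, length one along the parallels), on an event where the two directions differ. -/

set_option autoImplicit false

namespace Pool.Agent.Helper21.DO

open Finset Filter Topology Pool.Agent.Helper69.RK Pool.Agent.Helper31.EC Pool.Agent.Helper31.EC.Sp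
open Pool.Agent.Helper31.EC.QS Pool.Agent.Helper57.TA Pool.Agent.Helper96.FLT Pool.Agent.Helper38.NS
open Pool.Agent.Helper96.FLC Pool.Agent.Helper50.VC Pool.Agent.Helper97.SL

noncomputable section

variable {S : Sp}

theorem rj_qs {T : Sp} (p : Pj T S) (E : ∀ k, (S.F k).Ω → Prop) (hE : 0 < ul (S.pr E)) (f : QS S) :
    (rj p E).qs (QS.rest E hE f) = QS.rest _ (rj_pos p E hE) (p.qs f) := by
  obtain ⟨f, rfl⟩ := QS.mk_surj f
  rfl

/-- restriction to an event -/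
def rst {D : Sp} {d N : ℕ} (s : FV D d N) (E : ∀ k, (D.F k).Ω → Prop) (hE : 0 < ul (D.pr E)) : FV (D.rest E) d N where
  t := QS.rest E hE s.t
  a := fun i => QS.rest E hE (s.a i)
  x := fun i => QS.rest E hE (s.x i)
  b := fun i => QS.rest E hE (s.b i)
  F := fun i => QS.rest E hE (s.F i)

theorem rst_iB {D : Sp} {d N : ℕ} (s : FV D d N) (E : ∀ k, (D.F k).Ω → Prop) (hE : 0 < ul (D.pr E)) :
    (rst s E hE).iB = restL E hE s.iB := QS.rest_vd E hE s.b 1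

theorem rst_iL {D : Sp} {d N : ℕ} (s : FV D d N) (E : ∀ k, (D.F k).Ω → Prop) (hE : 0 < ul (D.pr E)) :
    (rst s E hE).iL = restL E hE s.iL := by
  unfold FV.iL
  rw [restL_sup, ← QS.rest_vd, ← QS.rest_vd]
  rfl

/-- RULE S, robust form: in all extensions and on all events of positive probability -/
def RuleSE {d N : ℕ} (s : FV S d N) (w : Fin N → ℝ) : Prop :=
  ∀ (D : Sp) (p p' : Pj D S) (E : ∀ k, (D.F k).Ω → Prop) (hE : 0 < ul (D.pr E)),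
    RuleS2 (rst (s.pull p) E hE) (rst (s.pull p') E hE) w

/-- the polynomial of the curve without the constant term -/
def cp {d k N : ℕ} (s : VB S d k N) (i : Fin N) : Polynomial (QS S) :=
  ∑ j : Fin k, Polynomial.C (s.c i j.succ) * Polynomial.X ^ ((j : ℕ) + 1)

theorem z_cp {d k N : ℕ} (s : VB S d k N) (i : Fin N) : s.fv.z i = s.c i 0 + (cp s i).eval s.t := by
  unfold FV.z VB.fv cp
  rw [Polynomial.eval_finsetSum, Finset.mul_sum]
  congr 1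
  apply Finset.sum_congr rfl
  intro j _
  simp only [Polynomial.eval_mul, Polynomial.eval_pow, Polynomial.eval_C, Polynomial.eval_X]
  ring

/-- all coefficients of a finite family of polynomials -/
def cf {A σ : Type} [CommRing A] {N : ℕ} (Ψ : Fin N → MvPolynomial σ A) (a : Σ i : Fin N, (Ψ i).support) : A :=
  (Ψ a.1).coeff a.2

theorem map_congr_cf {A B σ : Type} [CommRing A] [CommRing B] {N : ℕ} (Ψ : Fin N → MvPolynomial σ A) (φ φ' : A →+* B)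
    (h : ∀ a, φ (cf Ψ a) = φ' (cf Ψ a)) (i : Fin N) : MvPolynomial.map φ (Ψ i) = MvPolynomial.map φ' (Ψ i) := by
  ext m
  rw [MvPolynomial.coeff_map, MvPolynomial.coeff_map]
  by_cases hm : m ∈ (Ψ i).support
  · exact h ⟨i, ⟨m, hm⟩⟩
  · rw [MvPolynomial.notMem_support_iff.mp hm, map_zero, map_zero]

theorem vd_cf {σ : Type} {N : ℕ} {Ψ : Fin N → MvPolynomial σ (QS S)} (hΨ : ∀ i, Ψ i ∈ PK (⊥ : S.L)) (A : S.L) :
    vd (cf Ψ) 1 ≤ A := by
  rw [vd_le]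
  intro a
  exact (hΨ a.1 a.2).trans bot_le

theorem loop_map {A B : Type} [CommRing A] [CommRing B] (φ : A →+* B) (iv : ℕ → A) (Ψ : MvPolynomial (Fin 2) A)
    (a x u t0 t1 τ : A) : φ (loop iv Ψ a x u t0 t1 τ) =
      loop (fun n => φ (iv n)) (MvPolynomial.map φ Ψ) (φ a) (φ x) (φ u) (φ t0) (φ t1) (φ τ) := by
  unfold loop
  simp only [map_sub, map_add, ← Polynomial.eval_map_apply, Gl_map, map_mul]

/-- curves: the polynomial of the curve is the primitive of the velocity along the base line -/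
structure Vel {k N : ℕ} (s : VB S 1 k N) where
  Ψ : Fin N → MvPolynomial (Fin 2) (QS S)
  hΨ : ∀ i, Ψ i ∈ PK ⊥
  hcp : ∀ i, cp s i = Gl (iv S) (Ψ i) (s.a 0) (s.x 0)
  real : Rl ![s.t, s.a 0 + s.x 0 * s.t] ⊥

/-- value of the curve in an extension -/
theorem Vel.z {k N : ℕ} {s : VB S 1 k N} (V : Vel s) {D : Sp} (φ : QS S →+* QS D) (hφ : ∀ n, φ (iv S n) = iv D n)
    (i : Fin N) : φ (s.fv.z i) = φ (s.c i 0) +
      (Gl (iv D) (MvPolynomial.map φ (V.Ψ i)) (φ (s.a 0)) (φ (s.x 0))).eval (φ s.t) := by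
  rw [z_cp, V.hcp, map_add, ← Polynomial.eval_map_apply, Gl_map]
  have h1 : (fun n => φ (iv S n)) = iv D := funext hφ
  rw [h1]

theorem rest_iv (E : ∀ k, (S.F k).Ω → Prop) (hE : 0 < ul (S.pr E)) (n : ℕ) : QS.rest E hE (iv S n) = iv _ n := rfl

theorem exists_loop {k N : ℕ} {s : VB S 1 k N} (hs : s.Hyp) (V : Vel s) (w : s.fv.Star)
    (hw : ∀ a, w.p1.qs (cf V.Ψ a) = w.p2.qs (cf V.Ψ a)) (E : ∀ k, (w.D.F k).Ω → Prop) (hE : 0 < ul (w.D.pr E))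
    (hu : IsUnit (QS.rest E hE (w.p1.qs (s.x 0) - w.p2.qs (s.x 0)))) :
    ∃ (D : Sp) (π : Pj D w.D) (p' : Pj D S)
      (g : Loop (rst (s.fv.pull (π.comp w.p2)) _ (rj_pos π E hE)) (rst (s.fv.pull p') _ (rj_pos π E hE))),
      ∀ i, g.Ψ i = MvPolynomial.map ((QS.rest _ (rj_pos π E hE)).comp (π.comp w.p2).qs) (V.Ψ i) := by
  have h12 : (1 / 2 : ℝ) ≤ 1 := by norm_num
  have h02 : (0 : ℝ) ≤ 1 / 2 := by norm_num
  -- the Z-shape and the rectangle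
  obtain ⟨v, hv⟩ := exists_zedT' hs w h02 h12 (fun a => w.p2.qs (cf V.Ψ a)) (by
    rw [w.p2.qs_vd]
    exact (w.p2.map_mono (vd_cf V.hΨ ⊥)).trans (by rw [w.p2.map_bot]; exact bot_le))
  obtain ⟨g, hg⟩ := exists_rctT' hs v (ρ := 0) le_rfl zero_le_one (fun a => v.q2.qs (w.p2.qs (cf V.Ψ a))) (by
    rw [v.q2.qs_vd, w.p2.qs_vd]
    exact (v.q2.map_mono (w.p2.map_mono (vd_cf V.hΨ ⊥))).trans (by rw [w.p2.map_bot, v.q2.map_bot]; exact bot_le))
  obtain ⟨π, hπ⟩ : ∃ π : Pj g.D w.D, π = g.s1.comp v.q1 := ⟨_, rfl⟩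
  obtain ⟨P, hP⟩ : ∃ P : Fin N → MvPolynomial (Fin 2) (QS g.D), P = fun i =>
    MvPolynomial.map (g.s1.qs.comp (v.q1.qs.comp w.p2.qs)) (V.Ψ i) := ⟨_, rfl⟩
  -- all the velocities are the same
  have c1 : ∀ i, MvPolynomial.map (g.s1.qs.comp (v.q1.qs.comp w.p1.qs)) (V.Ψ i) = P i := by
    intro i
    rw [hP]
    exact map_congr_cf V.Ψ _ _ (fun a => by show g.s1.qs (v.q1.qs (w.p1.qs _)) = g.s1.qs (v.q1.qs (w.p2.qs _)); rw [hw a]) i
  have c2 : ∀ i, MvPolynomial.map (g.s1.qs.comp (v.q2.qs.comp w.p2.qs)) (V.Ψ i) = P i := by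
    intro i
    rw [hP]
    exact map_congr_cf V.Ψ _ _ (fun a => congrArg g.s1.qs (hv a).symm) i
  have c3 : ∀ i, MvPolynomial.map (g.s1.qs.comp (v.q2.qs.comp w.p1.qs)) (V.Ψ i) = P i := by
    intro i
    rw [← c2 i]
    exact map_congr_cf V.Ψ _ _ (fun a => by show g.s1.qs (v.q2.qs (w.p1.qs _)) = g.s1.qs (v.q2.qs (w.p2.qs _)); rw [hw a]) i
  have c4 : ∀ i, MvPolynomial.map (g.s2.qs.comp (v.q2.qs.comp w.p2.qs)) (V.Ψ i) = P i := by
    intro i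
    rw [← c2 i]
    exact map_congr_cf V.Ψ _ _ (fun a => (hg a).symm) i
  have c5 : ∀ i, MvPolynomial.map (g.s2.qs.comp (v.q2.qs.comp w.p1.qs)) (V.Ψ i) = P i := by
    intro i
    rw [← c4 i]
    exact map_congr_cf V.Ψ _ _ (fun a => by show g.s2.qs (v.q2.qs (w.p1.qs _)) = g.s2.qs (v.q2.qs (w.p2.qs _)); rw [hw a]) i
  have c6 : ∀ i, MvPolynomial.map (g.s2.qs.comp (v.q1.qs.comp w.p2.qs)) (V.Ψ i) = P i := by
    intro i
    rw [← c4 i]
    exact map_congr_cf V.Ψ _ _ (fun a => congrArg g.s2.qs (hv a)) i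
  have c7 : ∀ i, MvPolynomial.map (g.s2.qs.comp (v.q1.qs.comp w.p1.qs)) (V.Ψ i) = P i := by
    intro i
    rw [← c6 i]
    exact map_congr_cf V.Ψ _ _ (fun a => by show g.s2.qs (v.q1.qs (w.p1.qs _)) = g.s2.qs (v.q1.qs (w.p2.qs _)); rw [hw a]) i
  -- the elements
  obtain ⟨a, ha⟩ : ∃ a, a = g.s1.qs (v.q1.qs (w.p2.qs (s.a 0))) := ⟨_, rfl⟩
  obtain ⟨x, hx⟩ : ∃ x, x = g.s1.qs (v.q1.qs (w.p2.qs (s.x 0))) := ⟨_, rfl⟩
  obtain ⟨u, hu'⟩ : ∃ u, u = g.s1.qs (v.q1.qs (w.p1.qs (s.x 0))) := ⟨_, rfl⟩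
  have t0' : g.s1.qs (v.q2.qs (w.p1.qs s.t)) = g.t0 + g.tau := by
    unfold RctT.t0 RctT.tau ZedT.tau
    rw [map_sub]
    ring
  have t1' : g.s2.qs (v.q2.qs (w.p1.qs s.t)) = g.t1 + g.tau := by
    unfold RctT.t1 RctT.tau
    rw [g.ct]
    unfold ZedT.tau
    rw [map_sub]
    ring
  -- base line equations
  have y00 : g.s1.qs (v.q1.qs (w.p1.qs (s.a 0))) = a + (x - u) * g.t0 := by
    have h1 := congrArg (fun f => g.s1.qs (v.q1.qs f)) (w.cy 0)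
    unfold FV.y VB.fv at h1
    simp only [map_add, map_mul] at h1
    have h2 := congrArg (fun f => g.s1.qs (v.q1.qs f)) w.ct
    simp only [VB.fv] at h2
    rw [← h2] at h1
    rw [ha, hx, hu']
    unfold RctT.t0
    linear_combination h1
  have y10 : g.s2.qs (v.q1.qs (w.p1.qs (s.a 0))) = a + (x - u) * g.t1 := by
    have h1 := congrArg (fun f => g.s2.qs (v.q1.qs f)) (w.cy 0)
    unfold FV.y VB.fv at h1
    simp only [map_add, map_mul] at h1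
    have h2 := congrArg (fun f => g.s2.qs (v.q1.qs f)) w.ct
    simp only [VB.fv] at h2
    rw [← h2, ← g.aa 0, ← g.ax 0, ← g.cu 0] at h1
    rw [ha, hx, hu']
    unfold RctT.t1
    linear_combination h1
  have ya : g.s1.qs (v.q2.qs (w.p2.qs (s.a 0))) = a + (u - x) * g.tau := by
    have h1 := congrArg g.s1.qs (v.za 0)
    simp only [map_sub, map_mul] at h1
    rw [← v.cx 0] at h1
    rw [ha, hx, hu']
    unfold RctT.tau
    linear_combination -h1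
  have hiv : ∀ {A B C : Sp} (p : Pj A B) (q : Pj B C) (r : Pj C S) (n : ℕ),
      (p.qs.comp (q.qs.comp r.qs)) (iv S n) = iv A n := by
    intro A B C p q r n
    show p.qs (q.qs (r.qs (iv S n))) = iv A n
    rw [qs_iv, qs_iv, qs_iv]
  -- the four points
  have z00 : ∀ i, g.s1.qs (v.q1.qs (w.p1.qs (s.c i 0))) +
      (Gl (iv g.D) (P i) (a + (x - u) * g.t0) u).eval g.t0 = g.b0 i + (Gl (iv g.D) (P i) a x).eval g.t0 := by
    intro i
    have h1 := V.z (g.s1.qs.comp (v.q1.qs.comp w.p1.qs)) (hiv _ _ _) i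
    have h2 := V.z (g.s1.qs.comp (v.q1.qs.comp w.p2.qs)) (hiv _ _ _) i
    have h3 : (g.s1.qs.comp (v.q1.qs.comp w.p1.qs)) (s.fv.z i) = (g.s1.qs.comp (v.q1.qs.comp w.p2.qs)) (s.fv.z i) :=
      congrArg (fun f => g.s1.qs (v.q1.qs f)) (w.cz i)
    have h4 : (g.s1.qs.comp (v.q1.qs.comp w.p2.qs)) s.t = g.t0 :=
      (congrArg (fun f => g.s1.qs (v.q1.qs f)) w.ct).symm
    have h5 : (g.s1.qs.comp (v.q1.qs.comp w.p1.qs)) s.t = g.t0 := rfl
    have h6 : (g.s1.qs.comp (v.q1.qs.comp w.p1.qs)) (s.a 0) = a + (x - u) * g.t0 := y00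
    have h7 : (g.s1.qs.comp (v.q1.qs.comp w.p1.qs)) (s.x 0) = u := hu'.symm
    have h8 : (g.s1.qs.comp (v.q1.qs.comp w.p2.qs)) (s.a 0) = a := ha.symm
    have h9 : (g.s1.qs.comp (v.q1.qs.comp w.p2.qs)) (s.x 0) = x := hx.symm
    rw [c1, h5, h6, h7] at h1
    rw [h4, h8, h9] at h2
    rw [← h3, h1, hP] at h2
    rw [hP]
    exact h2
  have z01 : ∀ i, g.s1.qs (v.q1.qs (w.p1.qs (s.c i 0))) +
      (Gl (iv g.D) (P i) (a + (x - u) * g.t0) u).eval (g.t0 + g.tau) = g.s1.qs (v.q2.qs (w.p2.qs (s.c i 0))) +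
        (Gl (iv g.D) (P i) (a + (u - x) * g.tau) x).eval (g.t0 + g.tau) := by
    intro i
    have h1 := V.z (g.s1.qs.comp (v.q2.qs.comp w.p1.qs)) (hiv _ _ _) i
    have h2 := V.z (g.s1.qs.comp (v.q2.qs.comp w.p2.qs)) (hiv _ _ _) i
    have h3 : (g.s1.qs.comp (v.q2.qs.comp w.p1.qs)) (s.fv.z i) = (g.s1.qs.comp (v.q2.qs.comp w.p2.qs)) (s.fv.z i) :=
      congrArg (fun f => g.s1.qs (v.q2.qs f)) (w.cz i)
    have h4 : (g.s1.qs.comp (v.q2.qs.comp w.p2.qs)) s.t = g.t0 + g.tau := by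
      rw [← t0']
      exact (congrArg (fun f => g.s1.qs (v.q2.qs f)) w.ct).symm
    have h5 : (g.s1.qs.comp (v.q2.qs.comp w.p1.qs)) s.t = g.t0 + g.tau := t0'
    have h6 : (g.s1.qs.comp (v.q2.qs.comp w.p1.qs)) (s.a 0) = a + (x - u) * g.t0 := by
      rw [← y00]
      exact congrArg g.s1.qs (v.ca 0).symm
    have h7 : (g.s1.qs.comp (v.q2.qs.comp w.p1.qs)) (s.x 0) = u := by
      rw [hu']
      exact congrArg g.s1.qs (v.cu 0).symm
    have h8 : (g.s1.qs.comp (v.q2.qs.comp w.p2.qs)) (s.a 0) = a + (u - x) * g.tau := ya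
    have h9 : (g.s1.qs.comp (v.q2.qs.comp w.p2.qs)) (s.x 0) = x := by
      rw [hx]
      exact congrArg g.s1.qs (v.cx 0).symm
    have h10 : (g.s1.qs.comp (v.q2.qs.comp w.p1.qs)) (s.c i 0) = g.s1.qs (v.q1.qs (w.p1.qs (s.c i 0))) :=
      congrArg g.s1.qs (v.cc i 0).symm
    rw [c3, h5, h6, h7, h10] at h1
    rw [c2, h4, h8, h9] at h2
    rw [← h3, h1] at h2
    exact h2
  have z10 : ∀ i, g.s2.qs (v.q1.qs (w.p1.qs (s.c i 0))) +
      (Gl (iv g.D) (P i) (a + (x - u) * g.t1) u).eval g.t1 = g.b1 i + (Gl (iv g.D) (P i) a x).eval g.t1 := by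
    intro i
    have h1 := V.z (g.s2.qs.comp (v.q1.qs.comp w.p1.qs)) (hiv _ _ _) i
    have h2 := V.z (g.s2.qs.comp (v.q1.qs.comp w.p2.qs)) (hiv _ _ _) i
    have h3 : (g.s2.qs.comp (v.q1.qs.comp w.p1.qs)) (s.fv.z i) = (g.s2.qs.comp (v.q1.qs.comp w.p2.qs)) (s.fv.z i) :=
      congrArg (fun f => g.s2.qs (v.q1.qs f)) (w.cz i)
    have h4 : (g.s2.qs.comp (v.q1.qs.comp w.p2.qs)) s.t = g.t1 :=
      (congrArg (fun f => g.s2.qs (v.q1.qs f)) w.ct).symm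
    have h5 : (g.s2.qs.comp (v.q1.qs.comp w.p1.qs)) s.t = g.t1 := rfl
    have h6 : (g.s2.qs.comp (v.q1.qs.comp w.p1.qs)) (s.a 0) = a + (x - u) * g.t1 := y10
    have h7 : (g.s2.qs.comp (v.q1.qs.comp w.p1.qs)) (s.x 0) = u := by
      rw [hu']
      exact (g.cu 0).symm
    have h8 : (g.s2.qs.comp (v.q1.qs.comp w.p2.qs)) (s.a 0) = a := by
      rw [ha]
      exact (g.aa 0).symm
    have h9 : (g.s2.qs.comp (v.q1.qs.comp w.p2.qs)) (s.x 0) = x := by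
      rw [hx]
      exact (g.ax 0).symm
    rw [c7, h5, h6, h7] at h1
    rw [c6, h4, h8, h9] at h2
    rw [← h3, h1] at h2
    exact h2
  have z11 : ∀ i, g.s2.qs (v.q1.qs (w.p1.qs (s.c i 0))) +
      (Gl (iv g.D) (P i) (a + (x - u) * g.t1) u).eval (g.t1 + g.tau) = g.s1.qs (v.q2.qs (w.p2.qs (s.c i 0))) +
        (Gl (iv g.D) (P i) (a + (u - x) * g.tau) x).eval (g.t1 + g.tau) := by
    intro i
    have h1 := V.z (g.s2.qs.comp (v.q2.qs.comp w.p1.qs)) (hiv _ _ _) i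
    have h2 := V.z (g.s2.qs.comp (v.q2.qs.comp w.p2.qs)) (hiv _ _ _) i
    have h3 : (g.s2.qs.comp (v.q2.qs.comp w.p1.qs)) (s.fv.z i) = (g.s2.qs.comp (v.q2.qs.comp w.p2.qs)) (s.fv.z i) :=
      congrArg (fun f => g.s2.qs (v.q2.qs f)) (w.cz i)
    have h4 : (g.s2.qs.comp (v.q2.qs.comp w.p2.qs)) s.t = g.t1 + g.tau := by
      rw [← t1']
      exact (congrArg (fun f => g.s2.qs (v.q2.qs f)) w.ct).symm
    have h5 : (g.s2.qs.comp (v.q2.qs.comp w.p1.qs)) s.t = g.t1 + g.tau := t1'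
    have h6 : (g.s2.qs.comp (v.q2.qs.comp w.p1.qs)) (s.a 0) = a + (x - u) * g.t1 := by
      rw [← y10]
      exact congrArg g.s2.qs (v.ca 0).symm
    have h7 : (g.s2.qs.comp (v.q2.qs.comp w.p1.qs)) (s.x 0) = u := by
      rw [hu', g.cu 0]
      exact congrArg g.s2.qs (v.cu 0).symm
    have h8 : (g.s2.qs.comp (v.q2.qs.comp w.p2.qs)) (s.a 0) = a + (u - x) * g.tau := by
      rw [← ya]
      exact (g.ca 0).symm
    have h9 : (g.s2.qs.comp (v.q2.qs.comp w.p2.qs)) (s.x 0) = x := by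
      rw [hx, v.cx 0]
      exact (g.cx 0).symm
    have h10 : (g.s2.qs.comp (v.q2.qs.comp w.p1.qs)) (s.c i 0) = g.s2.qs (v.q1.qs (w.p1.qs (s.c i 0))) :=
      congrArg g.s2.qs (v.cc i 0).symm
    have h11 : (g.s2.qs.comp (v.q2.qs.comp w.p2.qs)) (s.c i 0) = g.s1.qs (v.q2.qs (w.p2.qs (s.c i 0))) :=
      (g.cc i 0).symm
    rw [c5, h5, h6, h7, h10] at h1
    rw [c4, h4, h8, h9, h11] at h2
    rw [← h3, h1] at h2
    exact h2
  -- THE LOOP
  have hloop : ∀ i, g.b1 i = g.b0 i + loop (iv g.D) (P i) a x u g.t0 g.t1 g.tau := by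
    intro i
    unfold loop
    linear_combination z00 i - z01 i - z10 i + z11 i
  -- on the event
  have hF := rj_pos π E hE
  obtain ⟨F, hFd⟩ : ∃ F : ∀ k, (g.D.F k).Ω → Prop, F = fun k ω => E k (π.π k ω) := ⟨_, rfl⟩
  have eL : (s.fv.pull (π.comp w.p2)).iL = g.L := by
    rw [FV.pull_iL, hπ, Pj.comp_map, Pj.comp_map]
    rfl
  have eB0 : (s.fv.pull (π.comp w.p2)).iB = vd g.b0 1 := by
    rw [FV.pull_iB, hπ, Pj.comp_map, Pj.comp_map]
    unfold FV.iB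
    rw [← w.p2.qs_vd, ← v.q1.qs_vd, ← g.s1.qs_vd]
    rfl
  have eB1 : (s.fv.pull ((g.s2.comp v.q1).comp w.p2)).iB = vd g.b1 1 := by
    rw [FV.pull_iB, Pj.comp_map, Pj.comp_map]
    unfold FV.iB
    rw [← w.p2.qs_vd, ← v.q1.qs_vd, ← g.s2.qs_vd]
    rfl
  have lu : QS.dg u 1 ≤ g.U := by
    rw [hu']
    unfold RctT.U ZedT.U FV.iX
    rw [← w.p1.qs_vd, ← v.q1.qs_vd, ← g.s1.qs_vd]
    exact dg_le_vd (fun i => g.s1.qs (v.q1.qs (w.p1.qs (s.fv.x i)))) 1 0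
  have hK0 := g.K0_eq
  have hT0 := g.T0_eq
  have hT1 := g.T1_eq
  have h0 : h (QS.dg g.tau 1) (g.L ⊔ QS.dg u 1 ⊔ QS.dg g.t0 1 ⊔ QS.dg g.t1 1) = 1 / 2 := by
    apply le_antisymm
    · have h1 := h_dg_of_mem h12 (g.tau_mem h12) (g.L ⊔ QS.dg u 1 ⊔ QS.dg g.t0 1 ⊔ QS.dg g.t1 1)
      linarith
    · have h1 := g.h_tau hs h02 h12 zero_le_one
      have h2 : h (QS.dg g.tau 1) (g.K0 ⊔ g.U ⊔ g.T0 ⊔ g.T1) ≤
          h (QS.dg g.tau 1) (g.L ⊔ QS.dg u 1 ⊔ QS.dg g.t0 1 ⊔ QS.dg g.t1 1) := h_anti (by order)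
      linarith
  have h1 : h (QS.dg g.t1 1) (g.L ⊔ QS.dg u 1 ⊔ QS.dg g.t0 1) = 1 := by
    apply le_antisymm (h_dg_le_one _ _)
    have h1 := g.f4 hs h02 h12 zero_le_one
    have h3 := g.hT1c hs le_rfl zero_le_one
    rw [sub_zero] at h3
    have h2 : h g.T1 (g.K0 ⊔ g.U ⊔ g.T0 ⊔ QS.dg g.tau 1 ⊔ g.Tc) = h g.T1 g.Tc :=
      h_of_ind' h1 (by order) (by order)
    have h4 : h g.T1 (g.K0 ⊔ g.U ⊔ g.T0 ⊔ QS.dg g.tau 1 ⊔ g.Tc) ≤ h (QS.dg g.t1 1) (g.L ⊔ QS.dg u 1 ⊔ QS.dg g.t0 1) := by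
      rw [← hT1]
      exact h_anti (by order)
    linarith
  have e1 : ∀ f, (π.comp w.p2).qs f = g.s1.qs (v.q1.qs (w.p2.qs f)) := by
    intro f
    rw [hπ, Pj.comp_qs, Pj.comp_qs]
  have e2 : ∀ f, ((g.s2.comp v.q1).comp w.p2).qs f = g.s2.qs (v.q1.qs (w.p2.qs f)) := by
    intro f
    rw [Pj.comp_qs, Pj.comp_qs]
  have e3 : ∀ f, π.qs f = g.s1.qs (v.q1.qs f) := by
    intro f
    rw [hπ, Pj.comp_qs]
  obtain ⟨ρ, hρ⟩ : ∃ ρ, ρ = QS.rest _ (rj_pos π E hE) := ⟨_, rfl⟩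
  have dρ : ∀ (f : QS g.D) (r : ℝ), QS.dg (ρ f) r = restL _ (rj_pos π E hE) (QS.dg f r) := by
    intro f r
    rw [hρ]
    exact QS.rest_dg _ _ f r
  have hsup : ∀ X Y : g.D.L, restL _ (rj_pos π E hE) X ⊔ restL _ (rj_pos π E hE) Y =
      restL _ (rj_pos π E hE) (X ⊔ Y) := fun X Y => (restL_sup _ _ X Y).symm
  refine ⟨g.D, π, (g.s2.comp v.q1).comp w.p2, ⟨fun i => MvPolynomial.map ρ (P i), ρ g.t0, ρ g.t1, ρ g.tau, ρ u,
    ?_, ?_, ?_, ?_, ?_, ?_, ?_, ?_, ?_, ?_, ?_⟩, ?_⟩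
  · intro i m
    rw [hP]
    beta_reduce
    rw [MvPolynomial.coeff_map, MvPolynomial.coeff_map, dρ]
    show restL _ _ (QS.dg (g.s1.qs (v.q1.qs (w.p2.qs _))) 1) ≤ ⊥
    rw [g.s1.qs_dg, v.q1.qs_dg, w.p2.qs_dg]
    have h2 := V.hΨ i m
    rw [le_bot_iff] at h2
    rw [h2, w.p2.map_bot, v.q1.map_bot, g.s1.map_bot, restL_bot]
  · intro i
    show QS.rest _ _ ((π.comp w.p2).qs (s.a i)) = QS.rest _ _ (((g.s2.comp v.q1).comp w.p2).qs (s.a i))
    rw [e1, e2, g.aa i]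
  · intro i
    show QS.rest _ _ ((π.comp w.p2).qs (s.x i)) = QS.rest _ _ (((g.s2.comp v.q1).comp w.p2).qs (s.x i))
    rw [e1, e2, g.ax i]
  · rw [hρ]
    exact Pool.Agent.Helper82.TP.rest_mem_Id _ _ (g.tau_mem h12)
  · rw [rst_iL, eL, dρ, dρ, dρ, dρ, hsup, hsup, hsup]
    apply Sp.h_rest_max _ _ h0
    intro E' hE'
    have h2 := h_dg_of_mem h12 (Pool.Agent.Helper82.TP.rest_mem_Id E' hE' (g.tau_mem h12))
      (restL E' hE' (g.L ⊔ QS.dg u 1 ⊔ QS.dg g.t0 1 ⊔ QS.dg g.t1 1))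
    rw [QS.rest_dg] at h2
    linarith
  · rw [rst_iL, eL, dρ, dρ, dρ, hsup, hsup]
    apply Sp.h_rest_max _ _ h1
    intro E' hE'
    rw [← QS.rest_dg]
    exact h_dg_le_one _ _
  · have h2 := hu.map (rj π E).qs
    rw [rj_qs, map_sub, map_sub, e3, e3, ← hu'] at h2
    show IsUnit (ρ u - QS.rest _ _ ((π.comp w.p2).qs (s.x 0)))
    rw [e1, hρ]
    exact h2
  · have h2 := (V.real.pull (π.comp w.p2)).rest _ (rj_pos π E hE)
    rw [Pj.map_bot, restL_bot] at h2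
    have h3 : (fun i => QS.rest _ (rj_pos π E hE) ((π.comp w.p2).qs (![s.t, s.a 0 + s.x 0 * s.t] i))) =
        ![ρ g.t0, (rst (s.fv.pull (π.comp w.p2)) _ (rj_pos π E hE)).a 0 +
          (rst (s.fv.pull (π.comp w.p2)) _ (rj_pos π E hE)).x 0 * ρ g.t0] := by
      have h4 : (π.comp w.p2).qs s.t = g.t0 := by
        rw [e1]
        exact (congrArg (fun f => g.s1.qs (v.q1.qs f)) w.ct).symm
      funext i
      fin_cases i
      · show QS.rest _ _ ((π.comp w.p2).qs s.t) = ρ g.t0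
        rw [h4, hρ]
      · show QS.rest _ _ ((π.comp w.p2).qs (s.a 0 + s.x 0 * s.t)) = QS.rest _ _ ((π.comp w.p2).qs (s.a 0)) +
          QS.rest _ _ ((π.comp w.p2).qs (s.x 0)) * ρ g.t0
        rw [map_add, map_mul, h4, map_add, map_mul, hρ]
    rw [h3] at h2
    exact h2
  · rw [rst_iB, rst_iL, eL, eB0, dρ, dρ, dρ, dρ, hsup, hsup, hsup, hsup]
    apply I_rest_zero
    exact ind_of (g.c1 hs h02 h12 zero_le_one) le_rfl (by order) (by order) (by order)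
  · rw [rst_iB, rst_iL, eL, eB1, dρ, dρ, dρ, dρ, hsup, hsup, hsup, hsup]
    apply I_rest_zero
    exact ind_of (g.c2 hs h02 h12 zero_le_one) le_rfl (by order) (by order) (by order)
  · intro i
    show QS.rest _ _ (((g.s2.comp v.q1).comp w.p2).qs (s.c i 0)) = QS.rest _ _ ((π.comp w.p2).qs (s.c i 0)) +
      loop (iv _) (MvPolynomial.map ρ (P i)) (QS.rest _ _ ((π.comp w.p2).qs (s.a 0)))
        (QS.rest _ _ ((π.comp w.p2).qs (s.x 0))) (ρ u) (ρ g.t0) (ρ g.t1) (ρ g.tau)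
    rw [e1, e1, e1, e2, ← ha, ← hx]
    have h2 := congrArg ρ (hloop i)
    rw [map_add, loop_map] at h2
    rw [hρ] at h2 ⊢
    exact h2
  · intro i
    show MvPolynomial.map ρ (P i) = _
    have h1 : P i = MvPolynomial.map (g.s1.qs.comp (v.q1.qs.comp w.p2.qs)) (V.Ψ i) := by rw [hP]
    rw [h1, MvPolynomial.map_map, hρ]
    have h2 : (QS.rest _ (rj_pos π E hE)).comp (g.s1.qs.comp (v.q1.qs.comp w.p2.qs)) =
        (QS.rest _ (rj_pos π E hE)).comp (π.comp w.p2).qs := by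
      apply RingHom.ext
      intro f
      show QS.rest _ (rj_pos π E hE) (g.s1.qs (v.q1.qs (w.p2.qs f))) = QS.rest _ (rj_pos π E hE) ((π.comp w.p2).qs f)
      rw [e1]
    rw [h2]

end

end Pool.Agent.Helper21.DO
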