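import Pool.Agent.Helper21.DO.Pl

/-! Primitives of polynomials along the lines of a plane; the exact linearisation of the loop integral around a
parallelogram one side of which has square zero. -/

set_option autoImplicit false

namespace Pool.Agent.Helper21.DO

open Finset Filter Topology Pool.Agent.Helper69.RK Pool.Agent.Helper31.EC Pool.Agent.Helper31.EC.Sp
open Pool.Agent.Helper31.EC.QS Pool.Agent.Helper57.TA

noncomputable section

section alg

variable {A : Type} [CommRing A]

/-- integration of polynomials (`iv n = 1 / (n + 1)`) -/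
def integ (iv : ℕ → A) : Polynomial A →ₗ[A] Polynomial A :=
  Polynomial.lsum fun n => (Polynomial.monomial (n + 1)) ∘ₗ (LinearMap.mulLeft A (iv n))

theorem integ_monomial (iv : ℕ → A) (n : ℕ) (a : A) :
    integ iv (Polynomial.monomial n a) = Polynomial.monomial (n + 1) (iv n * a) := by
  unfold integ
  rw [Polynomial.lsum_apply, Polynomial.sum_monomial_index]
  · rfl
  · exact map_zero _

theorem coeff_integ_succ (iv : ℕ → A) (P : Polynomial A) (n : ℕ) : (integ iv P).coeff (n + 1) = iv n * P.coeff n := by
  induction P using Polynomial.induction_on' with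
  | add p q hp hq => rw [map_add, Polynomial.coeff_add, Polynomial.coeff_add, hp, hq, mul_add]
  | monomial m a =>
    rw [integ_monomial, Polynomial.coeff_monomial, Polynomial.coeff_monomial]
    by_cases h : m = n
    · rw [if_pos (by omega), if_pos h, h]
    · rw [if_neg (by omega), if_neg h, mul_zero]

theorem coeff_integ_zero (iv : ℕ → A) (P : Polynomial A) : (integ iv P).coeff 0 = 0 := by
  induction P using Polynomial.induction_on' with
  | add p q hp hq => rw [map_add, Polynomial.coeff_add, hp, hq, add_zero]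
  | monomial m a =>
    rw [integ_monomial, Polynomial.coeff_monomial, if_neg (by omega)]

theorem derivative_integ {iv : ℕ → A} (hiv : ∀ n : ℕ, iv n * (n + 1) = 1) (P : Polynomial A) :
    Polynomial.derivative (integ iv P) = P := by
  ext n
  rw [Polynomial.coeff_derivative, coeff_integ_succ, mul_comm (iv n) (P.coeff n), mul_assoc, hiv, mul_one]

/-- Taylor expansion of order one -/
theorem aeval_add_sq {B σ : Type} [CommRing B] [Algebra A B] [Fintype σ] (f g : σ → B)
    (hg : ∀ i j, g i * g j = 0) (P : MvPolynomial σ A) :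
    MvPolynomial.aeval (fun i => f i + g i) P =
      MvPolynomial.aeval f P + ∑ i, g i * MvPolynomial.aeval f (MvPolynomial.pderiv i P) := by
  classical
  induction P using MvPolynomial.induction_on with
  | C a =>
    rw [MvPolynomial.algHom_C, MvPolynomial.algHom_C]
    simp
  | add p q hp hq =>
    rw [map_add, map_add, hp, hq]
    have h1 : ∀ i, g i * MvPolynomial.aeval f (MvPolynomial.pderiv i (p + q)) =
        g i * MvPolynomial.aeval f (MvPolynomial.pderiv i p) + g i * MvPolynomial.aeval f (MvPolynomial.pderiv i q) := by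
      intro i
      rw [map_add, map_add, mul_add]
    simp_rw [h1]
    rw [Finset.sum_add_distrib]
    ring
  | mul_X p n hp =>
    rw [map_mul, map_mul, MvPolynomial.aeval_X, MvPolynomial.aeval_X, hp]
    have h1 : ∀ i, g i * MvPolynomial.aeval f (MvPolynomial.pderiv i (p * MvPolynomial.X n)) =
        g i * MvPolynomial.aeval f (MvPolynomial.pderiv i p) * f n +
          (if i = n then g n * MvPolynomial.aeval f p else 0) := by
      intro i
      rw [Derivation.leibniz, smul_eq_mul, smul_eq_mul, map_add, map_mul, map_mul, MvPolynomial.aeval_X,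
        MvPolynomial.pderiv_X]
      by_cases h : i = n
      · subst h
        rw [Pi.single_eq_same, map_one, if_pos rfl]
        ring
      · rw [Pi.single_eq_of_ne (Ne.symm h), map_zero, if_neg h]
        ring
    simp_rw [h1]
    rw [Finset.sum_add_distrib, Finset.sum_ite_eq' Finset.univ n, if_pos (Finset.mem_univ n), ← Finset.sum_mul]
    have h2 : (∑ i, g i * MvPolynomial.aeval f (MvPolynomial.pderiv i p)) * g n = 0 := by
      rw [Finset.sum_mul]
      apply Finset.sum_eq_zero
      intro i _
      have h3 : g i * MvPolynomial.aeval f (MvPolynomial.pderiv i p) * g n =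
          (g i * g n) * MvPolynomial.aeval f (MvPolynomial.pderiv i p) := by ring
      rw [h3, hg, zero_mul]
    linear_combination h2

/-- the line `f = a + x t` in the plane of `(t, f)` -/
def ln (a x : A) : Fin 2 → Polynomial A := ![Polynomial.X, Polynomial.C a + Polynomial.C x * Polynomial.X]

/-- primitive of `Ψ` along a line, zero at `t = 0` -/
def Gl (iv : ℕ → A) (Ψ : MvPolynomial (Fin 2) A) (a x : A) : Polynomial A :=
  integ iv (MvPolynomial.aeval (ln a x) Ψ)

theorem Gl_shift (iv : ℕ → A) (Ψ : MvPolynomial (Fin 2) A) (a x δ : A) (hδ : δ * δ = 0) :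
    Gl iv Ψ (a + δ) x = Gl iv Ψ a x + δ • Gl iv (MvPolynomial.pderiv 1 Ψ) a x := by
  unfold Gl
  rw [← map_smul, ← map_add]
  congr 1
  have h1 : ln (a + δ) x = fun i => ln a x i + (![0, Polynomial.C δ] : Fin 2 → Polynomial A) i := by
    funext i
    fin_cases i
    · show Polynomial.X = Polynomial.X + 0
      rw [add_zero]
    · show Polynomial.C (a + δ) + Polynomial.C x * Polynomial.X =
        Polynomial.C a + Polynomial.C x * Polynomial.X + Polynomial.C δ
      rw [Polynomial.C_add]
      ring
  rw [h1, aeval_add_sq]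
  · rw [Fin.sum_univ_two]
    show MvPolynomial.aeval (ln a x) Ψ + (0 * MvPolynomial.aeval (ln a x) (MvPolynomial.pderiv 0 Ψ) +
      Polynomial.C δ * MvPolynomial.aeval (ln a x) (MvPolynomial.pderiv 1 Ψ)) = _
    rw [zero_mul, zero_add, Polynomial.smul_eq_C_mul]
  · intro i j
    fin_cases i <;> fin_cases j
    · exact mul_zero _
    · exact zero_mul _
    · exact mul_zero _
    · show Polynomial.C δ * Polynomial.C δ = 0
      rw [← Polynomial.C_mul, hδ, Polynomial.C_0]

theorem eval_ln (Ψ : MvPolynomial (Fin 2) A) (a x t : A) :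
    (MvPolynomial.aeval (ln a x) Ψ).eval t = MvPolynomial.eval ![t, a + x * t] Ψ := by
  have h1 : (Polynomial.evalRingHom t).comp (MvPolynomial.aeval (ln a x)).toRingHom =
      MvPolynomial.eval ![t, a + x * t] := by
    apply MvPolynomial.ringHom_ext
    · intro r
      simp
    · intro i
      fin_cases i
      · simp [ln]
      · simp [ln]
  exact DFunLike.congr_fun h1 Ψ

/-- THE LOOP: parallels `(a, x)`, `(a + (u - x) τ, x)`; transversals of direction `u` at the heights `t0`, `t1` of the
first parallel; `τ² = 0` -/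
def loop (iv : ℕ → A) (Ψ : MvPolynomial (Fin 2) A) (a x u t0 t1 τ : A) : A :=
  ((Gl iv Ψ (a + (u - x) * τ) x).eval (t1 + τ) - (Gl iv Ψ (a + (u - x) * τ) x).eval (t0 + τ)) -
    ((Gl iv Ψ a x).eval t1 - (Gl iv Ψ a x).eval t0) -
    ((Gl iv Ψ (a + (x - u) * t1) u).eval (t1 + τ) - (Gl iv Ψ (a + (x - u) * t1) u).eval t1) +
    ((Gl iv Ψ (a + (x - u) * t0) u).eval (t0 + τ) - (Gl iv Ψ (a + (x - u) * t0) u).eval t0)

theorem loop_eq {iv : ℕ → A} (hiv : ∀ n : ℕ, iv n * (n + 1) = 1) (Ψ : MvPolynomial (Fin 2) A) (a x u t0 t1 τ : A)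
    (hτ : τ * τ = 0) : loop iv Ψ a x u t0 t1 τ =
      τ * ((u - x) * ((Gl iv (MvPolynomial.pderiv 1 Ψ) a x).eval t1 -
        (Gl iv (MvPolynomial.pderiv 1 Ψ) a x).eval t0)) := by
  have hτ2 : τ ^ 2 = 0 := by rw [pow_two, hτ]
  have hd : ∀ b y : A, Polynomial.derivative (Gl iv Ψ b y) = MvPolynomial.aeval (ln b y) Ψ :=
    fun b y => derivative_integ hiv _
  have hd' : ∀ b y : A, Polynomial.derivative (Gl iv (MvPolynomial.pderiv 1 Ψ) b y) =
      MvPolynomial.aeval (ln b y) (MvPolynomial.pderiv 1 Ψ) := fun b y => derivative_integ hiv _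
  have hδ : (u - x) * τ * ((u - x) * τ) = 0 := by
    have h1 : (u - x) * τ * ((u - x) * τ) = (u - x) * (u - x) * (τ * τ) := by ring
    rw [h1, hτ, mul_zero]
  unfold loop
  rw [Gl_shift iv Ψ a x _ hδ]
  simp only [Polynomial.eval_add_of_sq_eq_zero _ _ _ hτ2, Polynomial.derivative_add, Polynomial.derivative_smul,
    Polynomial.eval_add, Polynomial.eval_smul, hd, hd', eval_ln, smul_eq_mul]
  have e1 : a + (x - u) * t1 + u * t1 = a + x * t1 := by ring
  have e0 : a + (x - u) * t0 + u * t0 = a + x * t0 := by ring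
  rw [e1, e0]
  have k : ∀ w : A, (u - x) * τ * w * τ = 0 := by
    intro w
    have h1 : (u - x) * τ * w * τ = (u - x) * w * (τ * τ) := by ring
    rw [h1, hτ, mul_zero]
  linear_combination k (MvPolynomial.eval ![t1, a + x * t1] (MvPolynomial.pderiv 1 Ψ)) -
    k (MvPolynomial.eval ![t0, a + x * t0] (MvPolynomial.pderiv 1 Ψ))

theorem integ_map {B : Type} [CommRing B] (φ : A →+* B) (iv : ℕ → A) (P : Polynomial A) :
    (integ iv P).map φ = integ (fun n => φ (iv n)) (P.map φ) := by
  induction P using Polynomial.induction_on' with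
  | add p q hp hq => rw [map_add, Polynomial.map_add, Polynomial.map_add, map_add, hp, hq]
  | monomial m a =>
    rw [integ_monomial, Polynomial.map_monomial, Polynomial.map_monomial, integ_monomial, map_mul]

theorem aeval_ln_map {B : Type} [CommRing B] (φ : A →+* B) (Ψ : MvPolynomial (Fin 2) A) (a x : A) :
    (MvPolynomial.aeval (ln a x) Ψ).map φ = MvPolynomial.aeval (ln (φ a) (φ x)) (MvPolynomial.map φ Ψ) := by
  induction Ψ using MvPolynomial.induction_on with
  | C c =>
    rw [MvPolynomial.map_C, MvPolynomial.algHom_C, MvPolynomial.algHom_C]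
    simp
  | add p q hp hq => rw [map_add, map_add, map_add, Polynomial.map_add, hp, hq]
  | mul_X p n hp =>
    rw [map_mul, map_mul, map_mul, Polynomial.map_mul, hp, MvPolynomial.map_X, MvPolynomial.aeval_X,
      MvPolynomial.aeval_X]
    congr 1
    fin_cases n
    · show Polynomial.X.map φ = Polynomial.X
      simp
    · show (Polynomial.C a + Polynomial.C x * Polynomial.X).map φ = Polynomial.C (φ a) + Polynomial.C (φ x) * Polynomial.X
      simp

theorem Gl_map {B : Type} [CommRing B] (φ : A →+* B) (iv : ℕ → A) (Ψ : MvPolynomial (Fin 2) A) (a x : A) :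
    (Gl iv Ψ a x).map φ = Gl (fun n => φ (iv n)) (MvPolynomial.map φ Ψ) (φ a) (φ x) := by
  unfold Gl
  rw [integ_map, aeval_ln_map]

end alg

end

end Pool.Agent.Helper21.DO
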